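import Mathlib
import Pool.Agent.H510R2.Div
import Pool.Agent.W200.MR.Stm

set_option autoImplicit false

/-!
# Finitely supported arithmetic functions and their Dirichlet polynomials
-/

open Finset

namespace Pool.Agent.TH445.MQ

open Pool.Agent.W200.MR (pw)

abbrev AF := ArithmeticFunction ℂ

/-- finite support -/
def FS (X : AF) : Prop := ∃ x : ℕ, ∀ n, x < n → X n = 0

/-- the Dirichlet polynomial -/
noncomputable def ev (X : AF) (τ : ℝ) : ℂ := ∑' n, X n * pw τ n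

lemma pw_norm (τ : ℝ) (n : ℕ) : ‖pw τ n‖ = 1 := by
  unfold pw
  exact Complex.norm_exp_ofReal_mul_I _

lemma pw_add (τ σ : ℝ) (n : ℕ) : pw (τ + σ) n = pw τ n * pw σ n := by
  unfold pw
  rw [← Complex.exp_add]
  congr 1
  push_cast
  ring

lemma ev_eq (X : AF) (x : ℕ) (hx : ∀ n, x < n → X n = 0) (τ : ℝ) :
    ev X τ = ∑ n ∈ Icc 1 x, X n * pw τ n := by
  unfold ev
  apply tsum_eq_sum
  intro n hn
  rw [mem_Icc, not_and_or] at hn
  rcases hn with h | h
  · have : n = 0 := by omega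
    subst this
    simp
  · rw [hx n (by omega), zero_mul]

lemma term_eq (X : AF) (τ : ℝ) (n : ℕ) :
    LSeries.term (fun n => X n) (-(Complex.I * τ)) n = X n * pw τ n := by
  rcases Nat.eq_zero_or_pos n with h | h
  · subst h; simp
  · rw [LSeries.term_of_ne_zero h.ne', Complex.cpow_neg, div_inv_eq_mul]
    congr 1
    unfold pw
    have hn : (n : ℂ) ≠ 0 := by exact_mod_cast h.ne'
    rw [Complex.cpow_def_of_ne_zero hn, ← Complex.natCast_log]
    congr 1
    push_cast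
    ring

lemma ev_LSeries (X : AF) (τ : ℝ) : ev X τ = LSeries (fun n => X n) (-(Complex.I * τ)) := by
  unfold ev LSeries
  exact tsum_congr fun n => (term_eq X τ n).symm

lemma FS.summable {X : AF} (h : FS X) (s : ℂ) : LSeriesSummable (fun n => X n) s := by
  obtain ⟨x, hx⟩ := h
  unfold LSeriesSummable
  apply summable_of_ne_finset_zero (s := Icc 0 x)
  intro n hn
  rw [mem_Icc, not_and_or] at hn
  have : x < n := by omega
  rcases Nat.eq_zero_or_pos n with h | h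
  · subst h; simp
  · rw [LSeries.term_of_ne_zero h.ne', hx n this, zero_div]

lemma ev_mul {X Y : AF} (hX : FS X) (hY : FS Y) (τ : ℝ) : ev (X * Y) τ = ev X τ * ev Y τ := by
  rw [ev_LSeries, ev_LSeries, ev_LSeries]
  exact ArithmeticFunction.LSeries_mul' (hX.summable _) (hY.summable _)

lemma FS.add {X Y : AF} (hX : FS X) (hY : FS Y) : FS (X + Y) := by
  obtain ⟨x, hx⟩ := hX
  obtain ⟨y, hy⟩ := hY
  refine ⟨max x y, fun n hn => ?_⟩
  rw [ArithmeticFunction.add_apply, hx n (lt_of_le_of_lt (le_max_left _ _) hn),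
    hy n (lt_of_le_of_lt (le_max_right _ _) hn), add_zero]

lemma FS.mul {X Y : AF} (hX : FS X) (hY : FS Y) : FS (X * Y) := by
  obtain ⟨x, hx⟩ := hX
  obtain ⟨y, hy⟩ := hY
  refine ⟨x * y, fun n hn => ?_⟩
  rw [ArithmeticFunction.mul_apply]
  apply sum_eq_zero
  rintro ⟨a, b⟩ hab
  rw [Nat.mem_divisorsAntidiagonal] at hab
  by_cases h1 : x < a
  · rw [hx a h1, zero_mul]
  · have h2 : y < b := by
      by_contra h2
      have := Nat.mul_le_mul (not_lt.1 h1) (not_lt.1 h2)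
      simp only at hab
      omega
    simp only
    rw [hy b h2, mul_zero]

lemma FS.one : FS 1 := ⟨1, fun n hn => ArithmeticFunction.one_apply_ne (by omega)⟩

lemma ev_one (τ : ℝ) : ev 1 τ = 1 := by
  rw [ev_eq 1 1 (fun n hn => ArithmeticFunction.one_apply_ne (by omega))]
  simp [pw]

lemma FS.pow {X : AF} (h : FS X) (k : ℕ) : FS (X ^ k) := by
  induction k with
  | zero => rw [pow_zero]; exact FS.one
  | succ k ih => rw [pow_succ]; exact ih.mul h

lemma ev_pow {X : AF} (h : FS X) (k : ℕ) (τ : ℝ) : ev (X ^ k) τ = ev X τ ^ k := by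
  induction k with
  | zero => rw [pow_zero, pow_zero, ev_one]
  | succ k ih => rw [pow_succ, pow_succ, ev_mul (h.pow k) h, ih]

lemma FS.prod {ι : Type*} (s : Finset ι) (X : ι → AF) (h : ∀ i ∈ s, FS (X i)) :
    FS (∏ i ∈ s, X i) := by
  classical
  induction s using Finset.induction_on with
  | empty => simpa using FS.one
  | insert a s ha ih =>
    rw [prod_insert ha]
    exact (h a (mem_insert_self _ _)).mul (ih fun i hi => h i (mem_insert_of_mem hi))

lemma ev_prod {ι : Type*} (s : Finset ι) (X : ι → AF) (h : ∀ i ∈ s, FS (X i)) (τ : ℝ) :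
    ev (∏ i ∈ s, X i) τ = ∏ i ∈ s, ev (X i) τ := by
  classical
  induction s using Finset.induction_on with
  | empty => simp [ev_one]
  | insert a s ha ih =>
    rw [prod_insert ha, prod_insert ha, ev_mul (h a (mem_insert_self _ _))
      (FS.prod s X fun i hi => h i (mem_insert_of_mem hi)),
      ih fun i hi => h i (mem_insert_of_mem hi)]

/-- coefficients bounded by `B`, support in `[1, x]` -/
def Bd (X : AF) (B x : ℝ) : Prop := (∀ n, ‖X n‖ ≤ B) ∧ ∀ n, X n ≠ 0 → (n : ℝ) ≤ x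

lemma Bd.fs {X : AF} {B x : ℝ} (h : Bd X B x) : FS X := by
  refine ⟨⌊x⌋₊, fun n hn => ?_⟩
  by_contra hc
  have h1 := h.2 n hc
  have h2 : n ≤ ⌊x⌋₊ := Nat.le_floor h1
  omega

lemma Bd.ev_le {X : AF} {B x : ℝ} (h : Bd X B x) (hx : 0 ≤ x) (τ : ℝ) : ‖ev X τ‖ ≤ x * B := by
  have hz : ∀ n, ⌊x⌋₊ < n → X n = 0 := by
    intro n hn
    by_contra hc
    have h2 : n ≤ ⌊x⌋₊ := Nat.le_floor (h.2 n hc)
    omega
  have hB : 0 ≤ B := (norm_nonneg _).trans (h.1 0)
  rw [ev_eq X _ hz]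
  calc ‖∑ n ∈ Icc 1 ⌊x⌋₊, X n * pw τ n‖ ≤ ∑ n ∈ Icc 1 ⌊x⌋₊, ‖X n * pw τ n‖ := norm_sum_le _ _
    _ ≤ ∑ n ∈ Icc 1 ⌊x⌋₊, B := by
        apply sum_le_sum
        intro n _
        rw [norm_mul, pw_norm, mul_one]
        exact h.1 n
    _ = ⌊x⌋₊ * B := by simp
    _ ≤ x * B := mul_le_mul_of_nonneg_right (Nat.floor_le hx) hB

lemma Bd.mul {X Y : AF} {B B' x y Δ T : ℝ} (hX : Bd X B x) (hY : Bd Y B' y) (hx : 0 ≤ x)
    (hT : x * y ≤ T) (hΔ : ∀ n : ℕ, 1 ≤ n → (n : ℝ) ≤ T → (n.divisors.card : ℝ) ≤ Δ)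
    (hΔ0 : 0 ≤ Δ) :
    Bd (X * Y) (B * B' * Δ) (x * y) := by
  have hB : 0 ≤ B := (norm_nonneg _).trans (hX.1 0)
  have hB' : 0 ≤ B' := (norm_nonneg _).trans (hY.1 0)
  have hsupp : ∀ n, (X * Y) n ≠ 0 → (n : ℝ) ≤ x * y := by
    intro n hn
    rw [ArithmeticFunction.mul_apply] at hn
    obtain ⟨⟨a, b⟩, hab, hne⟩ := exists_ne_zero_of_sum_ne_zero hn
    rw [Nat.mem_divisorsAntidiagonal] at hab
    simp only at hab hne
    have h1 := hX.2 a (left_ne_zero_of_mul hne)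
    have h2 := hY.2 b (right_ne_zero_of_mul hne)
    rw [← hab.1]
    push_cast
    exact mul_le_mul h1 h2 (Nat.cast_nonneg _) hx
  refine ⟨fun n => ?_, hsupp⟩
  by_cases hn : (X * Y) n = 0
  · rw [hn, norm_zero]; positivity
  · have hn1 : 1 ≤ n := by
      rcases Nat.eq_zero_or_pos n with h | h
      · subst h; simp at hn
      · exact h
    rw [ArithmeticFunction.mul_apply]
    calc ‖∑ x ∈ n.divisorsAntidiagonal, X x.1 * Y x.2‖
        ≤ ∑ x ∈ n.divisorsAntidiagonal, ‖X x.1 * Y x.2‖ := norm_sum_le _ _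
      _ ≤ ∑ x ∈ n.divisorsAntidiagonal, B * B' := by
          apply sum_le_sum
          intro p _
          rw [norm_mul]
          exact mul_le_mul (hX.1 _) (hY.1 _) (norm_nonneg _) hB
      _ = n.divisors.card * (B * B') := by
          rw [sum_const, nsmul_eq_mul]
          congr 2
          rw [← Nat.map_div_right_divisors, card_map]
      _ ≤ Δ * (B * B') := mul_le_mul_of_nonneg_right
          (hΔ n hn1 ((hsupp n hn).trans hT)) (by positivity)
      _ = B * B' * Δ := by ring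

lemma Bd.one {x : ℝ} (hx : 1 ≤ x) : Bd 1 1 x := by
  refine ⟨fun n => ?_, fun n hn => ?_⟩
  · by_cases h : n = 1
    · subst h; simp
    · rw [ArithmeticFunction.one_apply_ne h]; simp
  · by_cases h : n = 1
    · subst h; simpa using hx
    · exact absurd (ArithmeticFunction.one_apply_ne h) hn

lemma Bd.mono {X : AF} {B B' x y : ℝ} (h : Bd X B x) (hB : B ≤ B') (hx : x ≤ y) : Bd X B' y :=
  ⟨fun n => (h.1 n).trans hB, fun n hn => (h.2 n hn).trans hx⟩

/-- powers -/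
lemma Bd.pow {X : AF} {x Δ T : ℝ} (hX : Bd X 1 x) (hx : 1 ≤ x) (k : ℕ)
    (hT : x ^ k ≤ T) (hΔ : ∀ n : ℕ, 1 ≤ n → (n : ℝ) ≤ T → (n.divisors.card : ℝ) ≤ Δ)
    (hΔ0 : 0 ≤ Δ) : Bd (X ^ k) (Δ ^ k) (x ^ k) := by
  induction k with
  | zero => simpa using Bd.one le_rfl
  | succ k ih =>
    have h1 : x ^ k ≤ T := le_trans (pow_le_pow_right₀ hx (Nat.le_succ k)) hT
    have h2 := (ih h1).mul hX (by positivity) (by rw [← pow_succ]; exact hT) hΔ hΔ0
    rw [pow_succ, pow_succ, pow_succ]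
    rw [mul_one] at h2
    exact h2

/-- products -/
lemma Bd.prod_range {X : ℕ → AF} {V : AF} {v x Δ T : ℝ} {m : ℕ} (hV : Bd V (Δ ^ m) v) (hv : 0 ≤ v)
    (hX : ∀ i, Bd (X i) 1 x) (hx : 1 ≤ x) (k : ℕ)
    (hT : v * x ^ k ≤ T) (hΔ : ∀ n : ℕ, 1 ≤ n → (n : ℝ) ≤ T → (n.divisors.card : ℝ) ≤ Δ)
    (hΔ0 : 0 ≤ Δ) : Bd (V * ∏ i ∈ range k, X i) (Δ ^ (m + k)) (v * x ^ k) := by
  induction k with
  | zero => simpa using hV
  | succ k ih =>
    have h1 : v * x ^ k ≤ T :=
      le_trans (mul_le_mul_of_nonneg_left (pow_le_pow_right₀ hx (Nat.le_succ k)) hv) hT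
    have h2 := (ih h1).mul (hX k) (by positivity) (by rw [mul_assoc, ← pow_succ]; exact hT) hΔ hΔ0
    rw [prod_range_succ, ← mul_assoc, pow_succ x, ← mul_assoc v]
    rw [mul_one, ← pow_succ] at h2
    exact h2

end Pool.Agent.TH445.MQ
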