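import Pool.Agent.TH445.MQ.Alg
import Pool.Agent.W354.LS.Kern

set_option autoImplicit false

/-!
# Removing the condition `N ≤ n ≤ 2N`
-/

open Finset MeasureTheory

namespace Pool.Agent.TH445.MQ

open Pool.Agent.W200.MR (pw)
open Pool.Agent.W354.LS (tri KT KT_ft0 KT_cont KT_integrable tri_eq_zero)

/-- the part of the Dirichlet polynomial with `N ≤ n ≤ 2N` -/
noncomputable def cut (N : ℕ) (X : AF) (τ : ℝ) : ℂ := ∑ n ∈ Icc N (2 * N), X n * pw τ n

lemma tri_in {y a : ℝ} (ha : 0 < a) (h : |y| ≤ a) : a * tri (y / a) = a - |y| := by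
  unfold Pool.Agent.W354.LS.tri
  rw [abs_div, abs_of_pos ha, max_eq_right]
  · field_simp
  · rw [sub_nonneg, div_le_one ha]; exact h

lemma tri_out {y a : ℝ} (ha : 0 < a) (h : a ≤ |y|) : a * tri (y / a) = 0 := by
  rw [tri_eq_zero, mul_zero]
  rw [abs_div, abs_of_pos ha, le_div_iff₀ ha]
  linarith

lemma trap (N : ℕ) (hN : 1 ≤ N) (n : ℕ) (hn : 1 ≤ n) (a b c : ℝ) (hb : b = Real.log 2 / 2)
    (ha : a = b + 1 / (3 * N)) (hc : c = Real.log N + b) :
    (a * tri ((Real.log n - c) / a) - b * tri ((Real.log n - c) / b)) / (a - b) =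
      if n ∈ Icc N (2 * N) then 1 else 0 := by
  have hN0 : (0 : ℝ) < N := by exact_mod_cast hN
  have hN1 : (1 : ℝ) ≤ N := by exact_mod_cast hN
  have hn0 : (0 : ℝ) < n := by exact_mod_cast hn
  have hb0 : 0 < b := by rw [hb]; have := Real.log_pos (by norm_num : (1 : ℝ) < 2); linarith
  have hκ : 0 < 1 / (3 * (N : ℝ)) := by positivity
  have ha0 : 0 < a := by linarith
  have hab : a - b = 1 / (3 * (N : ℝ)) := by rw [ha]; ring
  have hab0 : a - b ≠ 0 := by rw [hab]; exact hκ.ne'
  have hl2N : Real.log (2 * N) = c + b := by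
    rw [Real.log_mul (by norm_num) hN0.ne', hc, hb]
    ring
  have hlN : Real.log N = c - b := by rw [hc]; ring
  split_ifs with h
  · rw [mem_Icc] at h
    have h1 : (N : ℝ) ≤ n := by exact_mod_cast h.1
    have h2 : (n : ℝ) ≤ 2 * N := by exact_mod_cast h.2
    have h3 := Real.log_le_log hN0 h1
    have h4 := Real.log_le_log hn0 h2
    have h5 : |Real.log n - c| ≤ b := abs_le.2 ⟨by linarith, by linarith⟩
    rw [tri_in ha0 (by linarith), tri_in hb0 h5]
    field_simp
    ring
  · have h5 : a ≤ |Real.log n - c| := by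
      rw [mem_Icc, not_and_or] at h
      rcases h with h | h
      · have h1 : (n : ℝ) + 1 ≤ N := by exact_mod_cast (not_le.1 h)
        have h2 := Real.one_sub_inv_le_log_of_pos (div_pos hN0 hn0)
        rw [Real.log_div hN0.ne' hn0.ne', inv_div] at h2
        have h3 : 1 / (N : ℝ) ≤ 1 - n / N := by
          rw [one_sub_div hN0.ne']
          exact div_le_div_of_nonneg_right (by linarith) hN0.le
        have h4 : 1 / (3 * (N : ℝ)) ≤ 1 / N := one_div_le_one_div_of_le hN0 (by linarith)
        rw [le_abs]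
        right
        linarith
      · have h1 : 2 * (N : ℝ) + 1 ≤ n := by exact_mod_cast (not_le.1 h)
        have h2 := Real.one_sub_inv_le_log_of_pos (div_pos hn0 (by positivity : (0 : ℝ) < 2 * N))
        rw [Real.log_div hn0.ne' (by positivity), inv_div] at h2
        have h3 : 1 / (3 * (N : ℝ)) ≤ 1 - 2 * N / n := by
          rw [one_sub_div hn0.ne', div_le_div_iff₀ (by positivity) hn0]
          nlinarith
        rw [le_abs]
        left
        linarith
    rw [tri_out ha0 h5, tri_out hb0 (by linarith)]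
    simp

lemma KT_form (a t : ℝ) (ha : 0 < a) (ht : t ≠ 0) :
    a * KT (a / (2 * Real.pi)) t = 2 / Real.pi * Real.sin (a * t / 2) ^ 2 / t ^ 2 := by
  have hp := Real.pi_pos
  unfold Pool.Agent.W354.LS.KT
  have e : Real.pi * (a / (2 * Real.pi) * t) = a * t / 2 := by field_simp
  rw [e, Real.sinc_of_ne_zero (by positivity)]
  field_simp

lemma w0_bound (N : ℕ) (hN : 1 ≤ N) (a b η t : ℝ) (hb : b = Real.log 2 / 2)
    (ha : a = b + 1 / (3 * N)) (hη : 0 < η) (hη1 : η ≤ 1) :
    |(a * KT (a / (2 * Real.pi)) t - b * KT (b / (2 * Real.pi)) t) / (a - b)| ≤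
      12 * (N : ℝ) ^ η * (1 + |t|) ^ (-(1 + η)) := by
  have hp := Real.pi_pos
  have hp3 := Real.pi_gt_three
  have hN0 : (0 : ℝ) < N := by exact_mod_cast hN
  have hN1 : (1 : ℝ) ≤ N := by exact_mod_cast hN
  have hl2 : Real.log 2 < 1 := by have := Real.log_two_lt_d9; linarith
  have hb0 : 0 < b := by rw [hb]; have := Real.log_pos (by norm_num : (1 : ℝ) < 2); linarith
  have hb1 : b ≤ 1 / 2 := by rw [hb]; linarith
  have hκ : 0 < 1 / (3 * (N : ℝ)) := by positivity
  have hκ1 : 1 / (3 * (N : ℝ)) ≤ 1 / 3 := one_div_le_one_div_of_le (by norm_num) (by linarith)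
  have ha0 : 0 < a := by linarith
  have hab : a - b = 1 / (3 * (N : ℝ)) := by rw [ha]; ring
  have hab0 : 0 < a - b := by rw [hab]; exact hκ
  have hNη : 1 ≤ (N : ℝ) ^ η := Real.one_le_rpow hN1 hη.le
  rcases eq_or_ne t 0 with h0 | h0
  · subst h0
    unfold Pool.Agent.W354.LS.KT
    simp only [mul_zero, Real.sinc_zero, abs_zero, add_zero, Real.one_rpow, mul_one]
    have e : (a * (a / (2 * Real.pi) * 1 ^ 2) - b * (b / (2 * Real.pi) * 1 ^ 2)) / (a - b) =
        (a + b) / (2 * Real.pi) := by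
      field_simp
      ring
    rw [e, abs_of_pos (by positivity), div_le_iff₀ (by positivity)]
    nlinarith
  · have ht0 : 0 < |t| := abs_pos.2 h0
    rw [KT_form a t ha0 h0, KT_form b t hb0 h0]
    have e1 : Real.sin (a * t / 2) ^ 2 - Real.sin (b * t / 2) ^ 2 =
        Real.sin ((a + b) * t / 2) * Real.sin ((a - b) * t / 2) := by
      have e2 : (a + b) * t / 2 = a * t / 2 + b * t / 2 := by ring
      have e3 : (a - b) * t / 2 = a * t / 2 - b * t / 2 := by ring
      rw [e2, e3, Real.sin_add, Real.sin_sub]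
      have h1 := Real.sin_sq_add_cos_sq (a * t / 2)
      have h2 := Real.sin_sq_add_cos_sq (b * t / 2)
      have h3 : Real.cos (a * t / 2) ^ 2 = 1 - Real.sin (a * t / 2) ^ 2 := by linarith
      have h4 : Real.cos (b * t / 2) ^ 2 = 1 - Real.sin (b * t / 2) ^ 2 := by linarith
      calc Real.sin (a * t / 2) ^ 2 - Real.sin (b * t / 2) ^ 2
          = Real.sin (a * t / 2) ^ 2 * (1 - Real.sin (b * t / 2) ^ 2) -
            (1 - Real.sin (a * t / 2) ^ 2) * Real.sin (b * t / 2) ^ 2 := by ring
        _ = Real.sin (a * t / 2) ^ 2 * Real.cos (b * t / 2) ^ 2 -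
            Real.cos (a * t / 2) ^ 2 * Real.sin (b * t / 2) ^ 2 := by rw [← h4, ← h3]
        _ = _ := by ring
    have e4 : (2 / Real.pi * Real.sin (a * t / 2) ^ 2 / t ^ 2 -
        2 / Real.pi * Real.sin (b * t / 2) ^ 2 / t ^ 2) / (a - b) =
        2 / Real.pi * (Real.sin ((a + b) * t / 2) * Real.sin ((a - b) * t / 2)) /
          (t ^ 2 * (a - b)) := by
      rw [← e1]
      field_simp
    rw [e4, abs_div, abs_mul, abs_mul, abs_mul, abs_of_pos hab0, abs_of_pos (by positivity : 0 < 2 / Real.pi),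
      abs_of_pos (by positivity : 0 < t ^ 2)]
    have hs1 : |Real.sin ((a + b) * t / 2)| ≤ 1 := Real.abs_sin_le_one _
    have hs2 : |Real.sin ((a - b) * t / 2)| ≤ 1 := Real.abs_sin_le_one _
    have hs3 : |Real.sin ((a + b) * t / 2)| ≤ (a + b) * |t| / 2 := by
      refine Real.abs_sin_le_abs.trans (le_of_eq ?_)
      rw [abs_div, abs_mul, abs_of_pos (by linarith : 0 < a + b), abs_two]
    have hs4 : |Real.sin ((a - b) * t / 2)| ≤ (a - b) * |t| / 2 := by
      refine Real.abs_sin_le_abs.trans (le_of_eq ?_)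
      rw [abs_div, abs_mul, abs_of_pos hab0, abs_two]
    have hsq : t ^ 2 = |t| ^ 2 := (sq_abs t).symm
    have hpi2 : 2 / Real.pi ≤ 1 := by rw [div_le_one hp]; linarith
    rcases le_or_gt |t| 1 with h1 | h1
    · have h2 : 2 / Real.pi * (|Real.sin ((a + b) * t / 2)| * |Real.sin ((a - b) * t / 2)|) /
          (t ^ 2 * (a - b)) ≤ 1 := by
        rw [div_le_one (by positivity), hsq]
        calc 2 / Real.pi * (|Real.sin ((a + b) * t / 2)| * |Real.sin ((a - b) * t / 2)|)
            ≤ 1 * (((a + b) * |t| / 2) * ((a - b) * |t| / 2)) := by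
              apply mul_le_mul hpi2 _ (by positivity) (by norm_num)
              exact mul_le_mul hs3 hs4 (abs_nonneg _) (by positivity)
          _ = (a + b) / 4 * (|t| ^ 2 * (a - b)) := by ring
          _ ≤ 1 * (|t| ^ 2 * (a - b)) := by
              apply mul_le_mul_of_nonneg_right _ (by positivity)
              linarith
          _ = _ := by ring
      refine h2.trans ?_
      have h3 : (1 / 4 : ℝ) ≤ (1 + |t|) ^ (-(1 + η)) := by
        calc (1 / 4 : ℝ) = 2 ^ (-2 : ℝ) := by
              rw [Real.rpow_neg (by norm_num)]; norm_num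
          _ ≤ 2 ^ (-(1 + η)) := Real.rpow_le_rpow_of_exponent_le (by norm_num) (by linarith)
          _ ≤ (1 + |t|) ^ (-(1 + η)) :=
              Real.rpow_le_rpow_of_nonpos (by positivity) (by linarith) (by linarith)
      have h4 : 12 * 1 * (1 / 4 : ℝ) ≤ 12 * (N : ℝ) ^ η * (1 + |t|) ^ (-(1 + η)) := by
        apply mul_le_mul _ h3 (by norm_num) (by positivity)
        linarith
      linarith
    · have h2 : 2 / Real.pi * (|Real.sin ((a + b) * t / 2)| * |Real.sin ((a - b) * t / 2)|) /
          (t ^ 2 * (a - b)) ≤ 3 * (N : ℝ) ^ η * |t| ^ (-(1 + η)) := by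
        have hA : 2 / Real.pi * (|Real.sin ((a + b) * t / 2)| * |Real.sin ((a - b) * t / 2)|) /
          (t ^ 2 * (a - b)) ≤ |t| ^ (-1 : ℝ) := by
          rw [div_le_iff₀ (by positivity), hsq, Real.rpow_neg_one]
          calc 2 / Real.pi * (|Real.sin ((a + b) * t / 2)| * |Real.sin ((a - b) * t / 2)|)
              ≤ 1 * (1 * ((a - b) * |t| / 2)) := by
                apply mul_le_mul hpi2 _ (by positivity) (by norm_num)
                exact mul_le_mul hs1 hs4 (abs_nonneg _) (by norm_num)
            _ ≤ |t| * (a - b) := by nlinarith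
            _ = |t|⁻¹ * (|t| ^ 2 * (a - b)) := by field_simp
        have hB : 2 / Real.pi * (|Real.sin ((a + b) * t / 2)| * |Real.sin ((a - b) * t / 2)|) /
          (t ^ 2 * (a - b)) ≤ 3 * N * |t| ^ (-2 : ℝ) := by
          rw [div_le_iff₀ (by positivity), hsq, hab]
          have e5 : |t| ^ (-2 : ℝ) = (|t| ^ 2)⁻¹ := by
            rw [Real.rpow_neg (abs_nonneg t)]; norm_num
          rw [e5]
          calc 2 / Real.pi * (|Real.sin ((a + b) * t / 2)| *
                |Real.sin (1 / (3 * (N : ℝ)) * t / 2)|) ≤ 1 * (1 * 1) := by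
                apply mul_le_mul hpi2 _ (by positivity) (by norm_num)
                exact mul_le_mul hs1 (Real.abs_sin_le_one _) (abs_nonneg _) (by norm_num)
            _ = 3 * N * (|t| ^ 2)⁻¹ * (|t| ^ 2 * (1 / (3 * N))) := by field_simp
        set Z := 2 / Real.pi * (|Real.sin ((a + b) * t / 2)| * |Real.sin ((a - b) * t / 2)|) /
          (t ^ 2 * (a - b)) with hZ
        have hZ0 : 0 ≤ Z := by rw [hZ]; positivity
        have e6 : Z = Z ^ (1 - η) * Z ^ η := by
          rw [← Real.rpow_add_of_nonneg hZ0 (by linarith) hη.le]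
          simp
        rw [e6]
        calc Z ^ (1 - η) * Z ^ η ≤ (|t| ^ (-1 : ℝ)) ^ (1 - η) * (3 * N * |t| ^ (-2 : ℝ)) ^ η :=
              mul_le_mul (Real.rpow_le_rpow hZ0 hA (by linarith)) (Real.rpow_le_rpow hZ0 hB hη.le)
                (by positivity) (by positivity)
          _ = 3 ^ η * (N : ℝ) ^ η * |t| ^ (-(1 + η)) := by
              rw [Real.mul_rpow (by positivity) (by positivity),
                Real.mul_rpow (by norm_num) hN0.le, ← Real.rpow_mul (abs_nonneg t),
                ← Real.rpow_mul (abs_nonneg t)]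
              have : |t| ^ (-(1 + η)) = |t| ^ (-1 * (1 - η)) * |t| ^ (-2 * η) := by
                rw [← Real.rpow_add ht0]
                congr 1
                ring
              rw [this]
              ring
          _ ≤ 3 * (N : ℝ) ^ η * |t| ^ (-(1 + η)) := by
              apply mul_le_mul_of_nonneg_right _ (by positivity)
              apply mul_le_mul_of_nonneg_right _ (by positivity)
              calc (3 : ℝ) ^ η ≤ 3 ^ (1 : ℝ) :=
                    Real.rpow_le_rpow_of_exponent_le (by norm_num) hη1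
                _ = 3 := Real.rpow_one 3
      refine h2.trans ?_
      have h3 : |t| ^ (-(1 + η)) ≤ 4 * (1 + |t|) ^ (-(1 + η)) := by
        calc |t| ^ (-(1 + η)) ≤ ((1 + |t|) / 2) ^ (-(1 + η)) :=
              Real.rpow_le_rpow_of_nonpos (by positivity) (by linarith) (by linarith)
          _ = 2 ^ (1 + η) * (1 + |t|) ^ (-(1 + η)) := by
              rw [Real.div_rpow (by positivity) (by norm_num), Real.rpow_neg (by norm_num : (0:ℝ) ≤ 2)]
              field_simp
          _ ≤ 4 * (1 + |t|) ^ (-(1 + η)) := by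
              apply mul_le_mul_of_nonneg_right _ (by positivity)
              calc (2 : ℝ) ^ (1 + η) ≤ 2 ^ (2 : ℝ) :=
                    Real.rpow_le_rpow_of_exponent_le (by norm_num) (by linarith)
                _ = 4 := by norm_num
      calc 3 * (N : ℝ) ^ η * |t| ^ (-(1 + η)) ≤ 3 * (N : ℝ) ^ η * (4 * (1 + |t|) ^ (-(1 + η))) :=
            mul_le_mul_of_nonneg_left h3 (by positivity)
        _ = _ := by ring

lemma weights (N : ℕ) (hN : 1 ≤ N) (η : ℝ) (hη : 0 < η) (hη1 : η ≤ 1) :
    ∃ w : ℝ → ℂ, Continuous w ∧ (∀ t, ‖w t‖ ≤ 12 * (N : ℝ) ^ η * (1 + |t|) ^ (-(1 + η))) ∧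
      ∀ n : ℕ, 1 ≤ n → ∫ t, w t * pw t n = if n ∈ Icc N (2 * N) then 1 else 0 := by
  have hp := Real.pi_pos
  have hN0 : (0 : ℝ) < N := by exact_mod_cast hN
  obtain ⟨b, hb⟩ : ∃ b : ℝ, b = Real.log 2 / 2 := ⟨_, rfl⟩
  obtain ⟨a, ha⟩ : ∃ a : ℝ, a = b + 1 / (3 * N) := ⟨_, rfl⟩
  obtain ⟨c, hc⟩ : ∃ c : ℝ, c = Real.log N + b := ⟨_, rfl⟩
  have hb0 : 0 < b := by rw [hb]; have := Real.log_pos (by norm_num : (1 : ℝ) < 2); linarith
  have hκ : 0 < 1 / (3 * (N : ℝ)) := by positivity
  have ha0 : 0 < a := by linarith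
  set w0 : ℝ → ℝ := fun t => (a * KT (a / (2 * Real.pi)) t - b * KT (b / (2 * Real.pi)) t) / (a - b)
    with hw0
  have hw0c : Continuous w0 := by
    have h1 := KT_cont (a / (2 * Real.pi))
    have h2 := KT_cont (b / (2 * Real.pi))
    fun_prop
  refine ⟨fun t => (w0 t : ℂ) * Complex.exp (((-(c * t) : ℝ) : ℂ) * Complex.I), by fun_prop, ?_, ?_⟩
  · intro t
    rw [norm_mul, Complex.norm_exp_ofReal_mul_I, mul_one, Complex.norm_real, Real.norm_eq_abs]
    exact w0_bound N hN a b η t hb ha hη hη1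
  · intro n hn
    have e1 : ∀ t, (w0 t : ℂ) * Complex.exp (((-(c * t) : ℝ) : ℂ) * Complex.I) * pw t n =
        ((a / (a - b) : ℝ) : ℂ) * ((KT (a / (2 * Real.pi)) t : ℂ) *
          Complex.exp ((((Real.log n - c) * t : ℝ) : ℂ) * Complex.I)) -
        ((b / (a - b) : ℝ) : ℂ) * ((KT (b / (2 * Real.pi)) t : ℂ) *
          Complex.exp ((((Real.log n - c) * t : ℝ) : ℂ) * Complex.I)) := by
      intro t
      unfold Pool.Agent.W200.MR.pw
      have : Complex.exp ((((Real.log n - c) * t : ℝ) : ℂ) * Complex.I) =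
          Complex.exp (((-(c * t) : ℝ) : ℂ) * Complex.I) *
            Complex.exp (((t * Real.log n : ℝ) : ℂ) * Complex.I) := by
        rw [← Complex.exp_add]
        congr 1
        push_cast
        ring
      rw [this, hw0]
      push_cast
      ring
    have hi : ∀ δ : ℝ, 0 < δ → Integrable (fun t : ℝ => (KT δ t : ℂ) *
        Complex.exp ((((Real.log n - c) * t : ℝ) : ℂ) * Complex.I)) := by
      intro δ hδ
      refine (KT_integrable hδ).mono ?_ ?_
      · apply Continuous.aestronglyMeasurable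
        have := KT_cont δ
        fun_prop
      · refine Filter.Eventually.of_forall fun t => ?_
        rw [norm_mul, Complex.norm_exp_ofReal_mul_I, mul_one, Complex.norm_real]
    simp only [e1]
    rw [integral_sub ((hi _ (by positivity)).const_mul _) ((hi _ (by positivity)).const_mul _),
      integral_const_mul, integral_const_mul, KT_ft0 (by positivity), KT_ft0 (by positivity)]
    have h1 : (Real.log n - c) / (2 * Real.pi * (a / (2 * Real.pi))) = (Real.log n - c) / a := by
      congr 1; field_simp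
    have h2 : (Real.log n - c) / (2 * Real.pi * (b / (2 * Real.pi))) = (Real.log n - c) / b := by
      congr 1; field_simp
    rw [h1, h2]
    have h3 := trap N hN n hn a b c hb ha hc
    have h4 : ((a / (a - b) : ℝ) : ℂ) * ((tri ((Real.log n - c) / a) : ℝ) : ℂ) -
        ((b / (a - b) : ℝ) : ℂ) * ((tri ((Real.log n - c) / b) : ℝ) : ℂ) =
        (((a * tri ((Real.log n - c) / a) - b * tri ((Real.log n - c) / b)) / (a - b) : ℝ) : ℂ) := by
      push_cast
      ring
    rw [h4, h3]
    split_ifs <;> simp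

lemma ev_cont {X : AF} (hX : FS X) : Continuous (ev X) := by
  obtain ⟨x, hx⟩ := hX
  have : ev X = fun τ => ∑ n ∈ Icc 1 x, X n * pw τ n := by
    funext τ
    exact ev_eq X x hx τ
  rw [this]
  unfold Pool.Agent.W200.MR.pw
  fun_prop

lemma ev_bdd {X : AF} (hX : FS X) : ∃ B : ℝ, 0 ≤ B ∧ ∀ τ, ‖ev X τ‖ ≤ B := by
  obtain ⟨x, hx⟩ := hX
  refine ⟨∑ n ∈ Icc 1 x, ‖X n‖, sum_nonneg fun _ _ => norm_nonneg _, fun τ => ?_⟩
  rw [ev_eq X x hx τ]
  refine (norm_sum_le _ _).trans (sum_le_sum fun n _ => ?_)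
  rw [norm_mul, pw_norm, mul_one]

/-- **removing the cutoff** -/
theorem cut_moment (η : ℝ) (hη : 0 < η) (hη1 : η ≤ 1) : ∃ C : ℝ, 1 ≤ C ∧
    ∀ N : ℕ, 1 ≤ N → ∀ X : AF, FS X → ∀ (T : ℕ) (q W : ℝ), 1 ≤ q →
      (∀ ξ : ℝ, ∑ t ∈ Icc 1 T, ‖ev X ((t : ℝ) + ξ)‖ ^ q ≤ W) →
      ∑ t ∈ Icc 1 T, ‖cut N X (t : ℝ)‖ ^ q ≤ (C * (N : ℝ) ^ η) ^ q * W := by
  have hint : Integrable (fun t : ℝ => (1 + |t|) ^ (-(1 + η))) := by
    have := integrable_one_add_norm (E := ℝ) (μ := volume) (r := 1 + η) (by simp; exact hη)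
    simpa [Real.norm_eq_abs] using this
  set c0 : ℝ := ∫ t : ℝ, (1 + |t|) ^ (-(1 + η)) with hc0
  have hc0nn : 0 ≤ c0 := integral_nonneg fun t => by positivity
  refine ⟨24 * c0 + 1, by linarith, ?_⟩
  intro N hN X hX T q W hq hW
  have hN1 : (1 : ℝ) ≤ N := by exact_mod_cast hN
  have hq0 : 0 < q := by linarith
  have hW0 : 0 ≤ W := le_trans (sum_nonneg fun _ _ => by positivity) (hW 0)
  obtain ⟨w, hwc, hwb, hwi⟩ := weights N hN η hη hη1
  set g : ℝ → ℝ := fun t => 12 * (N : ℝ) ^ η * (1 + |t|) ^ (-(1 + η)) with hg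
  have hgi : Integrable g := hint.const_mul _
  have hg0 : ∀ t, 0 ≤ g t := fun t => by rw [hg]; positivity
  set G : ℝ := ∫ t, g t with hG
  have hGeq : G = 12 * (N : ℝ) ^ η * c0 := by rw [hG, hg, integral_const_mul]
  have hG0 : 0 ≤ G := integral_nonneg hg0
  obtain ⟨B, hB0, hB⟩ := ev_bdd hX
  have hevc := ev_cont hX
  have hwint : Integrable w := by
    refine hgi.mono' hwc.aestronglyMeasurable (Filter.Eventually.of_forall hwb)
  -- representation
  have hrep : ∀ τ : ℝ, cut N X τ = ∫ v, w v * ev X (τ + v) := by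
    intro τ
    obtain ⟨x, hx⟩ := hX
    have e1 : ∀ v, w v * ev X (τ + v) = ∑ n ∈ Icc 1 x, (X n * pw τ n) * (w v * pw v n) := by
      intro v
      rw [ev_eq X x hx, mul_sum]
      apply sum_congr rfl
      intro n _
      rw [pw_add]
      ring
    simp only [e1]
    rw [integral_finsetSum _ (fun n _ => by
      apply Integrable.const_mul
      refine hwint.mono ?_ ?_
      · apply Continuous.aestronglyMeasurable
        unfold Pool.Agent.W200.MR.pw
        fun_prop
      · refine Filter.Eventually.of_forall fun v => ?_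
        rw [norm_mul, pw_norm, mul_one])]
    have e2 : ∀ n ∈ Icc 1 x, ∫ v, (X n * pw τ n) * (w v * pw v n) =
        if n ∈ Icc N (2 * N) then X n * pw τ n else 0 := by
      intro n hn
      rw [integral_const_mul, hwi n (mem_Icc.1 hn).1]
      split_ifs <;> simp
    rw [sum_congr rfl e2, ← sum_filter]
    unfold cut
    symm
    apply sum_subset_zero_on_sdiff
    · intro n hn
      exact (mem_filter.1 hn).2
    · intro n hn
      rw [mem_sdiff, mem_filter, not_and] at hn
      have h1 : n ∉ Icc 1 x := fun h => hn.2 h hn.1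
      have h2 : 1 ≤ n := le_trans hN (mem_Icc.1 hn.1).1
      rw [mem_Icc, not_and] at h1
      rw [hx n (by have := h1 h2; omega), zero_mul]
    · intro n _
      rfl
  -- the integrals
  have hJint : ∀ τ : ℝ, Integrable (fun v => g v * ‖ev X (τ + v)‖ ^ q) := by
    intro τ
    refine (hgi.mul_const (B ^ q)).mono ?_ ?_
    · apply AEStronglyMeasurable.mul hgi.aestronglyMeasurable
      apply Continuous.aestronglyMeasurable
      apply Continuous.rpow_const
      · fun_prop
      · intro v; right; exact hq0.le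
    · refine Filter.Eventually.of_forall fun v => ?_
      rw [Real.norm_eq_abs, Real.norm_eq_abs, abs_of_nonneg (mul_nonneg (hg0 v) (by positivity)),
        abs_of_nonneg (mul_nonneg (hg0 v) (by positivity))]
      exact mul_le_mul_of_nonneg_left (Real.rpow_le_rpow (norm_nonneg _) (hB _) hq0.le) (hg0 v)
  have hIint : ∀ τ : ℝ, Integrable (fun v => g v * ‖ev X (τ + v)‖) := by
    intro τ
    refine (hgi.mul_const B).mono ?_ ?_
    · apply AEStronglyMeasurable.mul hgi.aestronglyMeasurable
      apply Continuous.aestronglyMeasurable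
      fun_prop
    · refine Filter.Eventually.of_forall fun v => ?_
      rw [Real.norm_eq_abs, Real.norm_eq_abs, abs_of_nonneg (mul_nonneg (hg0 v) (norm_nonneg _)),
        abs_of_nonneg (mul_nonneg (hg0 v) hB0)]
      exact mul_le_mul_of_nonneg_left (hB _) (hg0 v)
  have hkey : ∀ τ : ℝ, ‖cut N X τ‖ ^ q * G ≤ (2 * G) ^ q * ∫ v, g v * ‖ev X (τ + v)‖ ^ q := by
    intro τ
    set I := ∫ v, g v * ‖ev X (τ + v)‖ with hI
    set J := ∫ v, g v * ‖ev X (τ + v)‖ ^ q with hJ
    have hJ0 : 0 ≤ J := integral_nonneg fun v => mul_nonneg (hg0 v) (by positivity)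
    have hcI : ‖cut N X τ‖ ≤ I := by
      rw [hrep]
      refine (norm_integral_le_integral_norm _).trans ?_
      apply integral_mono_of_nonneg (Filter.Eventually.of_forall fun v => norm_nonneg _) (hIint τ)
      refine Filter.Eventually.of_forall fun v => ?_
      simp only [norm_mul]
      exact mul_le_mul_of_nonneg_right (hwb v) (norm_nonneg _)
    have hlam : ∀ lam : ℝ, 0 < lam → I ≤ lam * G + lam ^ (1 - q) * J := by
      intro lam hl
      have h1 : ∀ v, g v * ‖ev X (τ + v)‖ ≤ lam * g v + lam ^ (1 - q) * (g v * ‖ev X (τ + v)‖ ^ q) := by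
        intro v
        set x := ‖ev X (τ + v)‖ with hx
        have hx0 : 0 ≤ x := norm_nonneg _
        have h2 : x ≤ lam + lam ^ (1 - q) * x ^ q := by
          rcases le_or_gt x lam with h | h
          · have : 0 ≤ lam ^ (1 - q) * x ^ q := by positivity
            linarith
          · have hx1 : 0 < x := hl.trans h
            have h3 : lam ^ (1 - q) * x ^ q = x * (x / lam) ^ (q - 1) := by
              rw [Real.div_rpow hx0 hl.le, show 1 - q = -(q - 1) by ring, Real.rpow_neg hl.le]
              have : x ^ q = x * x ^ (q - 1) := by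
                nth_rewrite 2 [← Real.rpow_one x]
                rw [← Real.rpow_add hx1]
                congr 1
                ring
              rw [this]
              field_simp
            have h4 : 1 ≤ (x / lam) ^ (q - 1) :=
              Real.one_le_rpow (by rw [le_div_iff₀ hl]; linarith) (by linarith)
            rw [h3]
            nlinarith
        calc g v * x ≤ g v * (lam + lam ^ (1 - q) * x ^ q) := mul_le_mul_of_nonneg_left h2 (hg0 v)
          _ = _ := by ring
      calc I ≤ ∫ v, (lam * g v + lam ^ (1 - q) * (g v * ‖ev X (τ + v)‖ ^ q)) := by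
            apply integral_mono (hIint τ) ((hgi.const_mul _).add ((hJint τ).const_mul _)) h1
        _ = lam * G + lam ^ (1 - q) * J := by
            have ea : ∫ v, lam * g v = lam * G := integral_const_mul _ _
            have eb : ∫ v, lam ^ (1 - q) * (g v * ‖ev X (τ + v)‖ ^ q) = lam ^ (1 - q) * J :=
              integral_const_mul _ _
            rw [integral_add (hgi.const_mul _) ((hJint τ).const_mul _), ea, eb]
    have hc0' : 0 ≤ ‖cut N X τ‖ := norm_nonneg _
    rcases hG0.eq_or_lt with hG1 | hG1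
    · rw [← hG1, mul_zero]
      positivity
    rcases hJ0.eq_or_lt with hJ1 | hJ1
    · have hI0 : I ≤ 0 := by
        by_contra hcon
        push Not at hcon
        have := hlam (I / (2 * G)) (by positivity)
        rw [← hJ1, mul_zero, add_zero] at this
        have e : I / (2 * G) * G = I / 2 := by field_simp
        rw [e] at this
        linarith
      have : ‖cut N X τ‖ = 0 := le_antisymm (hcI.trans hI0) hc0'
      rw [this, Real.zero_rpow hq0.ne', zero_mul]
      positivity
    · set lam := (J / G) ^ (1 / q) with hlamdef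
      have hl0 : 0 < lam := by positivity
      have hlq : lam ^ q = J / G := by
        rw [hlamdef, ← Real.rpow_mul (by positivity), one_div_mul_cancel hq0.ne', Real.rpow_one]
      have h1 := hlam lam hl0
      have h2 : lam ^ (1 - q) * J = lam * G := by
        rw [Real.rpow_sub hl0, Real.rpow_one, hlq]
        field_simp
      rw [h2] at h1
      have h3 : ‖cut N X τ‖ ≤ 2 * G * lam := by linarith
      have h4 : ‖cut N X τ‖ ^ q ≤ (2 * G) ^ q * (J / G) := by
        calc ‖cut N X τ‖ ^ q ≤ (2 * G * lam) ^ q := Real.rpow_le_rpow hc0' h3 hq0.le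
          _ = (2 * G) ^ q * (J / G) := by rw [Real.mul_rpow (by positivity) hl0.le, hlq]
      calc ‖cut N X τ‖ ^ q * G ≤ (2 * G) ^ q * (J / G) * G := mul_le_mul_of_nonneg_right h4 hG0
        _ = (2 * G) ^ q * J := by field_simp
  have hsum : ∑ t ∈ Icc 1 T, ∫ v, g v * ‖ev X ((t : ℝ) + v)‖ ^ q ≤ G * W := by
    rw [← integral_finsetSum _ (fun t _ => hJint _)]
    calc ∫ v, ∑ t ∈ Icc 1 T, g v * ‖ev X ((t : ℝ) + v)‖ ^ q ≤ ∫ v, g v * W := by
          apply integral_mono (integrable_finsetSum _ fun t _ => hJint _) (hgi.mul_const _)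
          intro v
          simp only
          rw [← mul_sum]
          exact mul_le_mul_of_nonneg_left (hW v) (hg0 v)
      _ = G * W := by rw [integral_mul_const]
  have hfin : (∑ t ∈ Icc 1 T, ‖cut N X (t : ℝ)‖ ^ q) * G ≤ (2 * G) ^ q * W * G := by
    rw [sum_mul]
    calc ∑ t ∈ Icc 1 T, ‖cut N X (t : ℝ)‖ ^ q * G
        ≤ ∑ t ∈ Icc 1 T, (2 * G) ^ q * ∫ v, g v * ‖ev X ((t : ℝ) + v)‖ ^ q :=
          sum_le_sum fun t _ => hkey t
      _ = (2 * G) ^ q * ∑ t ∈ Icc 1 T, ∫ v, g v * ‖ev X ((t : ℝ) + v)‖ ^ q := by rw [mul_sum]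
      _ ≤ (2 * G) ^ q * (G * W) := mul_le_mul_of_nonneg_left hsum (by positivity)
      _ = _ := by ring
  rcases hG0.eq_or_lt with hG1 | hG1
  · -- degenerate case: the weight vanishes, the cut is zero
    have hgz : w = 0 := by
      have h1 : g =ᵐ[volume] 0 := (integral_eq_zero_iff_of_nonneg hg0 hgi).1 hG1.symm
      have h2 : w =ᵐ[volume] 0 := by
        filter_upwards [h1] with v hv
        have := hwb v
        have hv' : g v = 0 := hv
        simp only [hg] at hv'
        rw [hv'] at this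
        exact norm_le_zero_iff.1 this
      exact (hwc.ae_eq_iff_eq volume continuous_const).1 h2
    have h3 : ∀ t ∈ Icc 1 T, ‖cut N X (t : ℝ)‖ ^ q = 0 := by
      intro t _
      rw [hrep, hgz]
      simp [Real.zero_rpow hq0.ne']
    rw [sum_eq_zero h3]
    positivity
  · have h4 := le_of_mul_le_mul_right hfin hG1
    refine h4.trans (mul_le_mul_of_nonneg_right ?_ hW0)
    apply Real.rpow_le_rpow (by positivity) _ hq0.le
    rw [hGeq]
    have : 0 ≤ (N : ℝ) ^ η := by positivity
    nlinarith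

end Pool.Agent.TH445.MQ
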