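import Pool.Agent.TH445.MQ.Alg

set_option autoImplicit false

/-!
# Decomposition of the smooth numbers into blocks
-/

open Finset

namespace Pool.Agent.TH445.MQ

/-- `f` is completely multiplicative at `p` -/
def cm (f : ℕ → ℂ) (p : ℕ) : Prop := ∀ m, f (p * m) = f p * f m

/-- the prime power condition -/
def ok (f : ℕ → ℂ) (y p n : ℕ) : Prop := p ^ (n.factorization p) ≤ y ∨ cm f p

/-- Euler factor at the prime `p`, prime powers `≤ y` only -/
noncomputable def ep (f : ℕ → ℂ) (y p : ℕ) : AF :=
  ⟨fun n => if n ≠ 0 ∧ n = p ^ (n.factorization p) ∧ n ≤ y then f n else 0, by simp⟩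

/-- a single term -/
noncomputable def E1 (f : ℕ → ℂ) (p : ℕ) (hp : p ≠ 0) : AF :=
  ⟨fun n => if n = p then f p else 0, by simp [hp.symm]⟩

open Classical in
/-- `f` on the integers composed of primes in `(z, w]`, with the prime power condition -/
noncomputable def co (f : ℕ → ℂ) (y z w : ℕ) : AF :=
  ⟨fun n => if n ≠ 0 ∧ ∀ p : ℕ, p.Prime → p ∣ n → z < p ∧ p ≤ w ∧ ok f y p n then f n else 0,
    by simp⟩

lemma ep_apply (f : ℕ → ℂ) (y p n : ℕ) :
    ep f y p n = if n ≠ 0 ∧ n = p ^ (n.factorization p) ∧ n ≤ y then f n else 0 := rfl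

lemma co_pos {f : ℕ → ℂ} {y z w n : ℕ}
    (h : n ≠ 0 ∧ ∀ p : ℕ, p.Prime → p ∣ n → z < p ∧ p ≤ w ∧ ok f y p n) : co f y z w n = f n :=
  if_pos h

lemma co_neg {f : ℕ → ℂ} {y z w n : ℕ}
    (h : ¬ (n ≠ 0 ∧ ∀ p : ℕ, p.Prime → p ∣ n → z < p ∧ p ≤ w ∧ ok f y p n)) : co f y z w n = 0 :=
  if_neg h

lemma co_ne {f : ℕ → ℂ} {y z w n : ℕ} (h : co f y z w n ≠ 0) :
    n ≠ 0 ∧ ∀ p : ℕ, p.Prime → p ∣ n → z < p ∧ p ≤ w ∧ ok f y p n := by
  by_contra hc
  exact h (co_neg hc)

lemma mul_ep {f : ℕ → ℂ} {y p : ℕ} (X : AF) (hX : ∀ n, X n ≠ 0 → ¬ p ∣ n)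
    (n : ℕ) (hn : n ≠ 0) :
    (X * ep f y p) n = X (ordCompl[p] n) * ep f y p (ordProj[p] n) := by
  rw [ArithmeticFunction.mul_apply]
  rw [sum_eq_single (ordCompl[p] n, ordProj[p] n)]
  · rintro ⟨a, b⟩ hab hne
    rw [Nat.mem_divisorsAntidiagonal] at hab
    simp only at hab ⊢
    by_contra hc
    have h1 := left_ne_zero_of_mul hc
    have h2 := right_ne_zero_of_mul hc
    have hpa := hX a h1
    rw [ep_apply] at h2
    have h3 : b ≠ 0 ∧ b = p ^ (b.factorization p) ∧ b ≤ y := by
      by_contra h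
      rw [if_neg h] at h2
      exact h2 rfl
    have ha0 : a ≠ 0 := by rintro rfl; simp at hpa
    have h4 : n.factorization p = b.factorization p := by
      rw [← hab.1, Nat.factorization_mul ha0 h3.1, Finsupp.add_apply,
        Nat.factorization_eq_zero_of_not_dvd hpa, zero_add]
    have hb : b = ordProj[p] n := by rw [h4]; exact h3.2.1
    have ha : a = ordCompl[p] n := by
      rw [← hb]
      exact (Nat.div_eq_of_eq_mul_left (Nat.pos_of_ne_zero h3.1) hab.1.symm).symm
    exact hne (by rw [ha, hb])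
  · intro h
    exfalso
    apply h
    rw [Nat.mem_divisorsAntidiagonal]
    refine ⟨?_, hn⟩
    simp only
    rw [mul_comm]
    exact Nat.ordProj_mul_ordCompl_eq_self n p

lemma mul_E1 {f : ℕ → ℂ} {p : ℕ} (hp : p ≠ 0) (X : AF) (n : ℕ) (hn : n ≠ 0) :
    (X * E1 f p hp) n = if p ∣ n then X (n / p) * f p else 0 := by
  rw [ArithmeticFunction.mul_apply]
  have hE : ∀ b, E1 f p hp b = if b = p then f p else 0 := fun _ => rfl
  split_ifs with hd
  · rw [sum_eq_single (n / p, p)]
    · simp only [hE, if_true]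
    · rintro ⟨a, b⟩ hab hne
      rw [Nat.mem_divisorsAntidiagonal] at hab
      simp only at hab ⊢
      rw [hE]
      split_ifs with hb
      · exfalso
        apply hne
        subst hb
        rw [← hab.1, Nat.mul_div_cancel _ (Nat.pos_of_ne_zero hp)]
      · rw [mul_zero]
    · intro h
      exfalso
      apply h
      rw [Nat.mem_divisorsAntidiagonal]
      exact ⟨Nat.div_mul_cancel hd, hn⟩
  · apply sum_eq_zero
    rintro ⟨a, b⟩ hab
    rw [Nat.mem_divisorsAntidiagonal] at hab
    simp only at hab ⊢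
    rw [hE]
    split_ifs with hb
    · exfalso
      apply hd
      rw [← hab.1, hb]
      exact Dvd.intro_left a rfl
    · rw [mul_zero]

lemma ord_facts {p n : ℕ} (hp : p.Prime) (hn : n ≠ 0) : ordCompl[p] n ≠ 0 ∧ ordProj[p] n ≠ 0 ∧
    (∀ r : ℕ, r ≠ p → (ordCompl[p] n).factorization r = n.factorization r) ∧
    (∀ r : ℕ, r.Prime → r ≠ p → (r ∣ ordCompl[p] n ↔ r ∣ n)) := by
  have hmul := Nat.ordProj_mul_ordCompl_eq_self n p
  refine ⟨(Nat.ordCompl_pos p hn).ne', (Nat.ordProj_pos n p).ne', ?_, ?_⟩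
  · intro r hr
    rw [Nat.factorization_ordCompl, Finsupp.erase_ne hr]
  · intro r hr hrp
    constructor
    · exact fun h => h.trans (Nat.ordCompl_dvd n p)
    · intro hrn
      rw [← hmul] at hrn
      rcases (Nat.Prime.dvd_mul hr).1 hrn with h3 | h3
      · exact absurd ((Nat.prime_dvd_prime_iff_eq hr hp).1 (hr.dvd_of_dvd_pow h3)) hrp
      · exact h3

lemma ep_proj {f : ℕ → ℂ} {y p n : ℕ} (hp : p.Prime) (hn : n ≠ 0) :
    ep f y p (ordProj[p] n) = if ordProj[p] n ≤ y then f (ordProj[p] n) else 0 := by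
  have hfact : (ordProj[p] n).factorization p = n.factorization p := by
    rw [hp.factorization_pow]; simp
  rw [ep_apply]
  have : (ordProj[p] n ≠ 0 ∧ ordProj[p] n = p ^ ((ordProj[p] n).factorization p) ∧
      ordProj[p] n ≤ y) ↔ ordProj[p] n ≤ y := by
    constructor
    · exact fun h => h.2.2
    · intro h
      exact ⟨(ord_facts hp hn).2.1, by rw [hfact], h⟩
  rw [if_congr this rfl rfl]

lemma f_ord {f : ℕ → ℂ} (hf : ∀ m n, Nat.Coprime m n → f (m * n) = f m * f n) {p n : ℕ}
    (hp : p.Prime) (hn : n ≠ 0) : f n = f (ordCompl[p] n) * f (ordProj[p] n) := by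
  have hcop : Nat.Coprime (ordCompl[p] n) (ordProj[p] n) :=
    ((Nat.coprime_ordCompl hp hn).pow_left _).symm
  rw [← hf _ _ hcop, mul_comm, Nat.ordProj_mul_ordCompl_eq_self n p]

/-- adding the prime `w + 1` at the top (not completely multiplicative there) -/
lemma co_top {f : ℕ → ℂ} (hf : ∀ m n, Nat.Coprime m n → f (m * n) = f m * f n) {y z w : ℕ}
    (hy : 1 ≤ y) (hzw : z ≤ w) (hp : (w + 1).Prime) (hcm : ¬ cm f (w + 1)) (n : ℕ) (hn : n ≠ 0) :
    co f y z (w + 1) n = co f y z w (ordCompl[w + 1] n) * ep f y (w + 1) (ordProj[w + 1] n) := by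
  obtain ⟨hc0, _, hfr, hdv⟩ := ord_facts hp hn
  rw [ep_proj hp hn]
  by_cases h : (n ≠ 0 ∧ ∀ r : ℕ, r.Prime → r ∣ n → z < r ∧ r ≤ w + 1 ∧ ok f y r n)
  · rw [co_pos h, f_ord hf hp hn]
    have h1 : ordProj[w + 1] n ≤ y := by
      by_cases hpn : (w + 1) ∣ n
      · exact ((h.2 _ hp hpn).2.2).resolve_right hcm
      · rw [Nat.factorization_eq_zero_of_not_dvd hpn, pow_zero]
        exact hy
    rw [if_pos h1, co_pos]
    refine ⟨hc0, fun r hr hrd => ?_⟩
    have hrp : r ≠ w + 1 := by
      rintro rfl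
      exact Nat.not_dvd_ordCompl hp hn hrd
    have h2 := h.2 r hr ((hdv r hr hrp).1 hrd)
    refine ⟨h2.1, by omega, ?_⟩
    unfold ok
    rw [hfr r hrp]
    exact h2.2.2
  · rw [co_neg h]
    split_ifs with h1
    · rw [co_neg, zero_mul]
      rintro ⟨_, h2⟩
      apply h
      refine ⟨hn, fun r hr hrn => ?_⟩
      by_cases hrp : r = w + 1
      · subst hrp
        exact ⟨by omega, le_rfl, Or.inl h1⟩
      · have h3 := h2 r hr ((hdv r hr hrp).2 hrn)
        refine ⟨h3.1, by omega, ?_⟩
        have h4 := h3.2.2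
        unfold ok at h4
        rw [hfr r hrp] at h4
        exact h4
    · rw [mul_zero]

/-- removing the prime `w + 1` at the bottom (not completely multiplicative there) -/
lemma co_bot {f : ℕ → ℂ} (hf : ∀ m n, Nat.Coprime m n → f (m * n) = f m * f n) {y w : ℕ}
    (hw : w < y) (hp : (w + 1).Prime) (hcm : ¬ cm f (w + 1)) (n : ℕ) (hn : n ≠ 0) :
    co f y w y n = co f y (w + 1) y (ordCompl[w + 1] n) * ep f y (w + 1) (ordProj[w + 1] n) := by
  obtain ⟨hc0, _, hfr, hdv⟩ := ord_facts hp hn
  rw [ep_proj hp hn]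
  by_cases h : (n ≠ 0 ∧ ∀ r : ℕ, r.Prime → r ∣ n → w < r ∧ r ≤ y ∧ ok f y r n)
  · rw [co_pos h, f_ord hf hp hn]
    have h1 : ordProj[w + 1] n ≤ y := by
      by_cases hpn : (w + 1) ∣ n
      · exact ((h.2 _ hp hpn).2.2).resolve_right hcm
      · rw [Nat.factorization_eq_zero_of_not_dvd hpn, pow_zero]
        omega
    rw [if_pos h1, co_pos]
    refine ⟨hc0, fun r hr hrd => ?_⟩
    have hrp : r ≠ w + 1 := by
      rintro rfl
      exact Nat.not_dvd_ordCompl hp hn hrd
    have h2 := h.2 r hr ((hdv r hr hrp).1 hrd)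
    refine ⟨by omega, h2.2.1, ?_⟩
    unfold ok
    rw [hfr r hrp]
    exact h2.2.2
  · rw [co_neg h]
    split_ifs with h1
    · rw [co_neg, zero_mul]
      rintro ⟨_, h2⟩
      apply h
      refine ⟨hn, fun r hr hrn => ?_⟩
      by_cases hrp : r = w + 1
      · subst hrp
        exact ⟨by omega, by omega, Or.inl h1⟩
      · have h3 := h2 r hr ((hdv r hr hrp).2 hrn)
        refine ⟨by omega, h3.2.1, ?_⟩
        have h4 := h3.2.2
        unfold ok at h4
        rw [hfr r hrp] at h4
        exact h4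
    · rw [mul_zero]

/-- no prime `w + 1`: top -/
lemma co_top' {f : ℕ → ℂ} {y z w n : ℕ} (hp : ¬ ((w + 1).Prime ∧ (w + 1) ∣ n)) :
    co f y z (w + 1) n = co f y z w n := by
  by_cases h : (n ≠ 0 ∧ ∀ r : ℕ, r.Prime → r ∣ n → z < r ∧ r ≤ w ∧ ok f y r n)
  · rw [co_pos h, co_pos]
    exact ⟨h.1, fun r hr hd => ⟨(h.2 r hr hd).1, by have := (h.2 r hr hd).2.1; omega, (h.2 r hr hd).2.2⟩⟩
  · rw [co_neg h, co_neg]
    rintro ⟨h0, h1⟩
    apply h
    refine ⟨h0, fun r hr hd => ⟨(h1 r hr hd).1, ?_, (h1 r hr hd).2.2⟩⟩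
    have h2 := (h1 r hr hd).2.1
    have h3 : r ≠ w + 1 := by rintro rfl; exact hp ⟨hr, hd⟩
    omega

/-- no prime `w + 1`: bottom -/
lemma co_bot' {f : ℕ → ℂ} {y w n : ℕ} (hp : ¬ ((w + 1).Prime ∧ (w + 1) ∣ n)) :
    co f y (w + 1) y n = co f y w y n := by
  by_cases h : (n ≠ 0 ∧ ∀ r : ℕ, r.Prime → r ∣ n → w < r ∧ r ≤ y ∧ ok f y r n)
  · rw [co_pos h, co_pos]
    refine ⟨h.1, fun r hr hd => ⟨?_, (h.2 r hr hd).2⟩⟩
    have h2 := (h.2 r hr hd).1
    have h3 : r ≠ w + 1 := by rintro rfl; exact hp ⟨hr, hd⟩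
    omega
  · rw [co_neg h, co_neg]
    rintro ⟨h0, h1⟩
    apply h
    exact ⟨h0, fun r hr hd => ⟨by have := (h1 r hr hd).1; omega, (h1 r hr hd).2⟩⟩

/-- a prime of complete multiplicativity -/
lemma co_cm {f : ℕ → ℂ} {y z w p : ℕ} (hp : p.Prime) (hz : z < p) (hw : p ≤ w) (hcm : cm f p)
    {n : ℕ} (hn : n ≠ 0) (hd : p ∣ n) : co f y z w n = co f y z w (n / p) * f p := by
  obtain ⟨m, rfl⟩ := hd
  have hm : m ≠ 0 := by rintro rfl; simp at hn
  rw [Nat.mul_div_cancel_left m hp.pos]
  have hfr : ∀ r : ℕ, r ≠ p → (p * m).factorization r = m.factorization r := by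
    intro r hr
    rw [Nat.factorization_mul hp.ne_zero hm, Finsupp.add_apply, hp.factorization,
      Finsupp.single_apply, if_neg hr.symm, zero_add]
  by_cases h : (m ≠ 0 ∧ ∀ r : ℕ, r.Prime → r ∣ m → z < r ∧ r ≤ w ∧ ok f y r m)
  · rw [co_pos h, co_pos, hcm m, mul_comm]
    refine ⟨hn, fun r hr hrd => ?_⟩
    by_cases hrp : r = p
    · subst hrp
      exact ⟨hz, hw, Or.inr hcm⟩
    · have hrm : r ∣ m := by
        rcases (Nat.Prime.dvd_mul hr).1 hrd with h3 | h3
        · exact absurd ((Nat.prime_dvd_prime_iff_eq hr hp).1 h3) hrp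
        · exact h3
      have h2 := h.2 r hr hrm
      refine ⟨h2.1, h2.2.1, ?_⟩
      unfold ok
      rw [hfr r hrp]
      exact h2.2.2
  · rw [co_neg h, zero_mul, co_neg]
    rintro ⟨_, h1⟩
    apply h
    refine ⟨hm, fun r hr hrd => ?_⟩
    have h2 := h1 r hr (hrd.mul_left p)
    refine ⟨h2.1, h2.2.1, ?_⟩
    by_cases hrp : r = p
    · subst hrp
      exact Or.inr hcm
    · have h3 := h2.2.2
      unfold ok at h3
      rw [hfr r hrp] at h3
      exact h3

/-- the part with `n < M` -/
noncomputable def low (M : ℝ) (X : AF) : AF := ⟨fun n => if (n : ℝ) < M then X n else 0, by simp⟩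

/-- the part with `n ≥ M` -/
noncomputable def high (M : ℝ) (X : AF) : AF := ⟨fun n => if (n : ℝ) < M then 0 else X n, by simp⟩

lemma low_apply (M : ℝ) (X : AF) (n : ℕ) : low M X n = if (n : ℝ) < M then X n else 0 := rfl
lemma high_apply (M : ℝ) (X : AF) (n : ℕ) : high M X n = if (n : ℝ) < M then 0 else X n := rfl

lemma low_add_high (M : ℝ) (X : AF) : low M X + high M X = X := by
  ext n
  rw [ArithmeticFunction.add_apply, low_apply, high_apply]
  split_ifs <;> simp

lemma co_norm {f : ℕ → ℂ} (hfb : ∀ n, ‖f n‖ ≤ 1) (y z w n : ℕ) : ‖co f y z w n‖ ≤ 1 := by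
  by_cases h : (n ≠ 0 ∧ ∀ r : ℕ, r.Prime → r ∣ n → z < r ∧ r ≤ w ∧ ok f y r n)
  · rw [co_pos h]; exact hfb n
  · rw [co_neg h]; simp

lemma co_self {f : ℕ → ℂ} (hf1 : f 1 = 1) (y z : ℕ) : co f y z z = 1 := by
  ext n
  rcases eq_or_ne n 1 with h | h
  · subst h
    rw [co_pos]
    · simp [hf1]
    · exact ⟨by norm_num, fun p hp hd => absurd (Nat.dvd_one.1 hd) hp.one_lt.ne'⟩
  · rw [ArithmeticFunction.one_apply_ne h, co_neg]
    rintro ⟨h0, h1⟩
    obtain ⟨p, hp, hd⟩ := Nat.exists_prime_and_dvd h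
    have := h1 p hp hd
    omega

lemma low_Bd {f : ℕ → ℂ} (hfb : ∀ n, ‖f n‖ ≤ 1) {y : ℕ} (hy : 1 ≤ y) {M : ℝ}
    (z w : ℕ) : Bd (low M (co f y z w)) 1 (M * y) := by
  have hy1 : (1 : ℝ) ≤ y := by exact_mod_cast hy
  refine ⟨fun n => ?_, fun n hn => ?_⟩
  · rw [low_apply]
    split_ifs
    · exact co_norm hfb _ _ _ _
    · simp
  · rw [low_apply] at hn
    split_ifs at hn with h
    · nlinarith
    · exact absurd rfl hn

/-- **one step of the decomposition** -/
lemma tel {f : ℕ → ℂ} (hf : ∀ m n, Nat.Coprime m n → f (m * n) = f m * f n)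
    (hfb : ∀ n, ‖f n‖ ≤ 1) {y : ℕ} (hy : 1 ≤ y) {M : ℝ} (hM : 1 < M) {z w : ℕ} (hzw : z ≤ w)
    (hwy : w < y) :
    ∃ B : AF, ∃ w' ≤ y, (Bd B 1 (M * y) ∧ ∀ n, B n ≠ 0 → M ≤ (n : ℝ)) ∧
      low M (co f y z w) * co f y w y =
        low M (co f y z (w + 1)) * co f y (w + 1) y + B * co f y w' y := by
  have hM0 : 0 < M := by linarith
  have hy1 : (1 : ℝ) ≤ y := by exact_mod_cast hy
  by_cases hp : (w + 1).Prime
  · by_cases hcm : cm f (w + 1)
    · -- completely multiplicative at `w + 1`
      set E := E1 f (w + 1) hp.ne_zero with hE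
      have h1 : co f y w y = co f y (w + 1) y + co f y w y * E := by
        ext n
        rcases Nat.eq_zero_or_pos n with h0 | h0
        · subst h0; simp
        rw [ArithmeticFunction.add_apply, mul_E1 hp.ne_zero _ n h0.ne']
        by_cases hd : (w + 1) ∣ n
        · rw [if_pos hd, ← co_cm hp (by omega) (by omega) hcm h0.ne' hd]
          have : co f y (w + 1) y n = 0 := by
            apply co_neg
            rintro ⟨_, h2⟩
            have := h2 _ hp hd
            omega
          rw [this, zero_add]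
        · rw [if_neg hd, add_zero, co_bot' (fun h => hd h.2)]
      have h2 : low M (co f y z (w + 1)) = low M (co f y z w) +
          low M (low M (co f y z (w + 1)) * E) := by
        ext n
        rcases Nat.eq_zero_or_pos n with h0 | h0
        · subst h0; simp
        rw [ArithmeticFunction.add_apply, low_apply, low_apply, low_apply]
        split_ifs with hnM
        · rw [mul_E1 hp.ne_zero _ n h0.ne']
          by_cases hd : (w + 1) ∣ n
          · rw [if_pos hd, low_apply, if_pos, ← co_cm hp (by omega) (by omega) hcm h0.ne' hd]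
            · have : co f y z w n = 0 := by
                apply co_neg
                rintro ⟨_, h2⟩
                have := h2 _ hp hd
                omega
              rw [this, zero_add]
            · refine lt_of_le_of_lt ?_ hnM
              exact_mod_cast Nat.div_le_self n (w + 1)
          · rw [if_neg hd, add_zero, co_top' (fun h => hd h.2)]
        · simp
      refine ⟨high M (low M (co f y z (w + 1)) * E), w, hwy.le, ⟨⟨fun n => ?_, fun n hn => ?_⟩,
        fun n hn => ?_⟩, ?_⟩
      · rw [high_apply]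
        split_ifs
        · simp
        · rcases Nat.eq_zero_or_pos n with h0 | h0
          · subst h0; simp
          rw [mul_E1 hp.ne_zero _ n h0.ne']
          split_ifs
          · rw [norm_mul, low_apply]
            split_ifs
            · exact mul_le_one₀ (co_norm hfb _ _ _ _) (norm_nonneg _) (hfb _)
            · simp
          · simp
      · rw [high_apply] at hn
        have hn0 : n ≠ 0 := by rintro rfl; simp at hn
        split_ifs at hn with h3
        · exact absurd rfl hn
        · rw [mul_E1 hp.ne_zero _ n hn0] at hn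
          split_ifs at hn with hd
          · have h4 := left_ne_zero_of_mul hn
            rw [low_apply] at h4
            split_ifs at h4 with h5
            · have h6 : (n : ℝ) = ((n / (w + 1) : ℕ) : ℝ) * ((w + 1 : ℕ) : ℝ) := by
                exact_mod_cast (Nat.div_mul_cancel hd).symm
              rw [h6]
              have h7 : ((w + 1 : ℕ) : ℝ) ≤ y := by exact_mod_cast hwy
              exact mul_le_mul h5.le h7 (Nat.cast_nonneg _) hM0.le
            · exact absurd rfl h4
          · exact absurd rfl hn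
      · rw [high_apply] at hn
        by_contra hc
        rw [if_pos (not_le.1 hc)] at hn
        exact hn rfl
      · have h3 := low_add_high M (low M (co f y z (w + 1)) * E)
        set L' := low M (co f y z (w + 1)) with hL'
        have h4 : co f y (w + 1) y = co f y w y - co f y w y * E := by
          rw [eq_sub_iff_add_eq]; exact h1.symm
        have h5 : low M (co f y z w) = L' - low M (L' * E) := by
          rw [eq_sub_iff_add_eq]; exact h2.symm
        have h6 : low M (L' * E) = L' * E - high M (L' * E) := by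
          rw [eq_sub_iff_add_eq]; exact h3
        rw [h4, h5, h6]
        ring
    · -- prime powers as atoms
      have hXp : ∀ n, low M (co f y z w) n ≠ 0 → ¬ (w + 1) ∣ n := by
        intro n hn hd
        rw [low_apply] at hn
        split_ifs at hn
        · have := (co_ne hn).2 _ hp hd
          omega
        · exact hn rfl
      have hYp : ∀ n, co f y (w + 1) y n ≠ 0 → ¬ (w + 1) ∣ n := by
        intro n hn hd
        have := (co_ne hn).2 _ hp hd
        omega
      have h1 : co f y w y = co f y (w + 1) y * ep f y (w + 1) := by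
        ext n
        rcases Nat.eq_zero_or_pos n with h0 | h0
        · subst h0; simp
        rw [mul_ep _ hYp n h0.ne', co_bot hf hwy hp hcm n h0.ne']
      have h2 : low M (co f y z (w + 1)) = low M (low M (co f y z w) * ep f y (w + 1)) := by
        ext n
        rcases Nat.eq_zero_or_pos n with h0 | h0
        · subst h0; simp
        rw [low_apply, low_apply]
        split_ifs with hnM
        · rw [mul_ep _ hXp n h0.ne', co_top hf hy hzw hp hcm n h0.ne', low_apply, if_pos]
          refine lt_of_le_of_lt ?_ hnM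
          exact_mod_cast Nat.div_le_self n _
        · rfl
      refine ⟨high M (low M (co f y z w) * ep f y (w + 1)), w + 1, hwy, ⟨⟨fun n => ?_,
        fun n hn => ?_⟩, fun n hn => ?_⟩, ?_⟩
      · rw [high_apply]
        split_ifs
        · simp
        · rcases Nat.eq_zero_or_pos n with h0 | h0
          · subst h0; simp
          rw [mul_ep _ hXp n h0.ne', norm_mul, low_apply, ep_apply]
          split_ifs
          · exact mul_le_one₀ (co_norm hfb _ _ _ _) (norm_nonneg _) (hfb _)
          · simp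
          · simp
          · simp
      · rw [high_apply] at hn
        have hn0 : n ≠ 0 := by rintro rfl; simp at hn
        split_ifs at hn with h3
        · exact absurd rfl hn
        · rw [mul_ep _ hXp n hn0, ep_proj hp hn0] at hn
          have h4 := left_ne_zero_of_mul hn
          have h5 := right_ne_zero_of_mul hn
          rw [low_apply] at h4
          split_ifs at h4 with h6
          · split_ifs at h5 with h7
            · have h8 : (n : ℝ) = ((ordCompl[w + 1] n : ℕ) : ℝ) * ((ordProj[w + 1] n : ℕ) : ℝ) := by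
                rw [mul_comm]
                exact_mod_cast (Nat.ordProj_mul_ordCompl_eq_self n (w + 1)).symm
              rw [h8]
              have h9 : ((ordProj[w + 1] n : ℕ) : ℝ) ≤ y := by exact_mod_cast h7
              exact mul_le_mul h6.le h9 (Nat.cast_nonneg _) hM0.le
            · exact absurd rfl h5
          · exact absurd rfl h4
      · rw [high_apply] at hn
        by_contra hc
        rw [if_pos (not_le.1 hc)] at hn
        exact hn rfl
      · rw [h2, h1]
        have h3 := low_add_high M (low M (co f y z w) * ep f y (w + 1))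
        have h4 : low M (low M (co f y z w) * ep f y (w + 1)) =
            low M (co f y z w) * ep f y (w + 1) - high M (low M (co f y z w) * ep f y (w + 1)) := by
          rw [eq_sub_iff_add_eq]; exact h3
        rw [h4]
        ring
  · refine ⟨0, y, le_rfl, ⟨⟨fun n => by simp, fun n hn => absurd rfl hn⟩,
      fun n hn => absurd rfl hn⟩, ?_⟩
    have h1 : co f y z (w + 1) = co f y z w := by
      ext n
      exact co_top' (fun h => hp h.1)
    have h2 : co f y (w + 1) y = co f y w y := by
      ext n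
      exact co_bot' (fun h => hp h.1)
    rw [h1, h2]
    ring

/-- **the block decomposition** -/
lemma decomp {f : ℕ → ℂ} (hf1 : f 1 = 1) (hf : ∀ m n, Nat.Coprime m n → f (m * n) = f m * f n)
    (hfb : ∀ n, ‖f n‖ ≤ 1) {y : ℕ} (hy : 1 ≤ y) {M : ℝ} (hM : 1 < M) (z j : ℕ) (hj : z + j ≤ y) :
    ∃ B : ℕ → AF, ∃ w' : ℕ → ℕ, (∀ i, w' i ≤ y) ∧
      (∀ i, Bd (B i) 1 (M * y) ∧ ∀ n, B i n ≠ 0 → M ≤ (n : ℝ)) ∧
      co f y z y = low M (co f y z (z + j)) * co f y (z + j) y +
        ∑ i ∈ range j, B i * co f y (w' i) y := by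
  induction j with
  | zero =>
    have hy1 : (1 : ℝ) ≤ y := by exact_mod_cast hy
    refine ⟨fun _ => 0, fun _ => y, fun _ => le_rfl, fun _ => ⟨⟨fun n => by simp,
      fun n hn => absurd rfl hn⟩, fun n hn => absurd rfl hn⟩, ?_⟩
    have : low M (co f y z (z + 0)) = 1 := by
      rw [Nat.add_zero, co_self hf1]
      ext n
      rw [low_apply]
      rcases eq_or_ne n 1 with h | h
      · subst h; simp [hM]
      · rw [ArithmeticFunction.one_apply_ne h]; simp
    rw [this]
    simp
  | succ j ih =>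
    obtain ⟨B, w', h1, h2, h3⟩ := ih (by omega)
    obtain ⟨b, v, h4, h5, h6⟩ := tel hf hfb hy hM (by omega : z ≤ z + j) (by omega : z + j < y)
    refine ⟨fun i => if i = j then b else B i, fun i => if i = j then v else w' i, ?_, ?_, ?_⟩
    · intro i
      beta_reduce
      split_ifs
      · exact h4
      · exact h1 i
    · intro i
      beta_reduce
      split_ifs
      · exact h5
      · exact h2 i
    · beta_reduce
      rw [h3, h6, sum_range_succ, if_pos rfl, if_pos rfl]
      have : ∑ i ∈ range j, (if i = j then b else B i) * co f y (if i = j then v else w' i) y =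
          ∑ i ∈ range j, B i * co f y (w' i) y := by
        apply sum_congr rfl
        intro i hi
        have : i ≠ j := (mem_range.1 hi).ne
        rw [if_neg this, if_neg this]
      rw [this, ← Nat.add_assoc]
      ring

end Pool.Agent.TH445.MQ
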