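import Pool.Agent.TH445.MQ.Rec

set_option autoImplicit false

/-!
# Rough and smooth parts, and the choice of the parameters
-/

open Finset MeasureTheory

namespace Pool.Agent.TH445.MQ

open Pool.Agent.W200.MR (pw)

/-- the part of `n` made of the primes `≤ y` -/
def smoothPart (y n : ℕ) : ℕ := ∏ p ∈ n.primeFactors.filter (fun p => p ≤ y), p ^ n.factorization p

/-- the part of `n` made of the primes `> y` -/
def roughPart (y n : ℕ) : ℕ := ∏ p ∈ n.primeFactors.filter (fun p => y < p), p ^ n.factorization p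

lemma rough_mul_smooth (y n : ℕ) (hn : n ≠ 0) : roughPart y n * smoothPart y n = n := by
  unfold roughPart smoothPart
  have h := prod_filter_mul_prod_filter_not n.primeFactors (fun p => y < p)
    (fun p => p ^ n.factorization p)
  have e : n.primeFactors.filter (fun p => ¬ y < p) = n.primeFactors.filter (fun p => p ≤ y) := by
    apply filter_congr
    intro p _
    exact not_lt
  rw [e] at h
  rw [h]
  exact Nat.prod_factorization_pow_eq_self hn

lemma dvd_rough {y n p : ℕ} (hp : p.Prime) (h : p ∣ roughPart y n) : y < p := by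
  unfold roughPart at h
  obtain ⟨r, hr, hd⟩ := (Prime.dvd_finsetProd_iff hp.prime _).1 h
  rw [mem_filter] at hr
  have := (Nat.prime_dvd_prime_iff_eq hp (Nat.prime_of_mem_primeFactors hr.1)).1
    (hp.dvd_of_dvd_pow hd)
  rw [this]
  exact hr.2

lemma dvd_smooth {y n p : ℕ} (hp : p.Prime) (h : p ∣ smoothPart y n) : p ≤ y := by
  unfold smoothPart at h
  obtain ⟨r, hr, hd⟩ := (Prime.dvd_finsetProd_iff hp.prime _).1 h
  rw [mem_filter] at hr
  have := (Nat.prime_dvd_prime_iff_eq hp (Nat.prime_of_mem_primeFactors hr.1)).1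
    (hp.dvd_of_dvd_pow hd)
  rw [this]
  exact hr.2

lemma cop {y a b : ℕ} (ha : ∀ p : ℕ, p.Prime → p ∣ a → y < p)
    (hb : ∀ p : ℕ, p.Prime → p ∣ b → p ≤ y) : Nat.Coprime a b := by
  apply Nat.coprime_of_dvd
  intro p hp h1 h2
  have := ha p hp h1
  have := hb p hp h2
  omega

open Classical in
/-- the rough part of the coefficients -/
noncomputable def GG (g : ℕ → ℂ) (y k T : ℕ) : AF :=
  ⟨fun n => if n ≠ 0 ∧ (∀ p : ℕ, p.Prime → p ∣ n → y < p) ∧ n ^ (k + 1) ≤ T then g n else 0, by simp⟩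

lemma GG_pos {g : ℕ → ℂ} {y k T n : ℕ}
    (h : n ≠ 0 ∧ (∀ p : ℕ, p.Prime → p ∣ n → y < p) ∧ n ^ (k + 1) ≤ T) : GG g y k T n = g n :=
  if_pos h

lemma GG_neg {g : ℕ → ℂ} {y k T n : ℕ}
    (h : ¬ (n ≠ 0 ∧ (∀ p : ℕ, p.Prime → p ∣ n → y < p) ∧ n ^ (k + 1) ≤ T)) : GG g y k T n = 0 :=
  if_neg h

open Classical in
lemma coeff {f : ℕ → ℂ} (g : ℕ → ℂ) {y : ℕ} (k T n : ℕ) (hn : n ≠ 0) :
    (GG g y k T * co f y 0 y) n = if roughPart y n ^ (k + 1) ≤ T ∧
      (∀ p : ℕ, p.Prime → p ∣ n → p ≤ y →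
        p ^ n.factorization p ≤ y ∨ ∀ m, f (p * m) = f p * f m) then
        g (roughPart y n) * f (smoothPart y n) else 0 := by
  set r := roughPart y n with hr
  set s := smoothPart y n with hs
  have hrs : r * s = n := rough_mul_smooth y n hn
  have hr0 : r ≠ 0 := by rintro h; rw [h, zero_mul] at hrs; exact hn hrs.symm
  have hs0 : s ≠ 0 := by rintro h; rw [h, mul_zero] at hrs; exact hn hrs.symm
  have hrp : ∀ p : ℕ, p.Prime → p ∣ r → y < p := fun p hp h => dvd_rough hp h
  have hsp : ∀ p : ℕ, p.Prime → p ∣ s → p ≤ y := fun p hp h => dvd_smooth hp h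
  rw [ArithmeticFunction.mul_apply, sum_eq_single (r, s)]
  · simp only
    have h2 : (s ≠ 0 ∧ ∀ p : ℕ, p.Prime → p ∣ s → 0 < p ∧ p ≤ y ∧ ok f y p s) ↔
        (∀ p : ℕ, p.Prime → p ∣ n → p ≤ y →
          p ^ n.factorization p ≤ y ∨ ∀ m, f (p * m) = f p * f m) := by
      constructor
      · rintro ⟨_, h⟩ p hp hpn hpy
        have hpr : ¬ p ∣ r := fun h3 => by have := hrp p hp h3; omega
        have hps : p ∣ s := by
          rw [← hrs] at hpn
          exact ((Nat.Prime.dvd_mul hp).1 hpn).resolve_left hpr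
        have h3 := (h p hp hps).2.2
        have h4 : n.factorization p = s.factorization p := by
          rw [← hrs, Nat.factorization_mul hr0 hs0, Finsupp.add_apply,
            Nat.factorization_eq_zero_of_not_dvd hpr, zero_add]
        rw [h4]
        exact h3
      · intro h
        refine ⟨hs0, fun p hp hps => ⟨hp.pos, hsp p hp hps, ?_⟩⟩
        have hpr : ¬ p ∣ r := fun h3 => by
          have := hrp p hp h3
          have := hsp p hp hps
          omega
        have h4 : n.factorization p = s.factorization p := by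
          rw [← hrs, Nat.factorization_mul hr0 hs0, Finsupp.add_apply,
            Nat.factorization_eq_zero_of_not_dvd hpr, zero_add]
        unfold ok
        rw [← h4]
        exact h p hp (hps.trans ⟨r, by rw [mul_comm]; exact hrs.symm⟩) (hsp p hp hps)
    by_cases c1 : r ^ (k + 1) ≤ T
    · rw [GG_pos ⟨hr0, hrp, c1⟩]
      by_cases c2 : (∀ p : ℕ, p.Prime → p ∣ n → p ≤ y →
          p ^ n.factorization p ≤ y ∨ ∀ m, f (p * m) = f p * f m)
      · rw [co_pos (h2.2 c2), if_pos ⟨c1, c2⟩]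
      · rw [co_neg (fun h => c2 (h2.1 h)), mul_zero, if_neg (fun h => c2 h.2)]
    · rw [GG_neg (fun h => c1 h.2.2), zero_mul, if_neg (fun h => c1 h.1)]
  · rintro ⟨a, b⟩ hab hne
    rw [Nat.mem_divisorsAntidiagonal] at hab
    simp only at hab ⊢
    by_contra hc
    have h1 := left_ne_zero_of_mul hc
    have h2 := right_ne_zero_of_mul hc
    have ha : a ≠ 0 ∧ (∀ p : ℕ, p.Prime → p ∣ a → y < p) ∧ a ^ (k + 1) ≤ T := by
      by_contra h
      exact h1 (GG_neg h)
    have hb := co_ne h2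
    have hbp : ∀ p : ℕ, p.Prime → p ∣ b → p ≤ y := fun p hp h => (hb.2 p hp h).2.1
    have e1 : b ∣ s := by
      have : b ∣ r * s := by rw [hrs, ← hab.1]; exact Dvd.intro_left a rfl
      exact (cop hrp hbp).symm.dvd_of_dvd_mul_left this
    have e2 : s ∣ b := by
      have : s ∣ a * b := by rw [hab.1, ← hrs]; exact Dvd.intro_left r rfl
      exact (cop ha.2.1 hsp).symm.dvd_of_dvd_mul_left this
    have e3 : b = s := Nat.dvd_antisymm e1 e2
    have e4 : a = r := by
      have : a * s = r * s := by rw [← e3, hab.1, e3, hrs]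
      exact Nat.eq_of_mul_eq_mul_right (Nat.pos_of_ne_zero hs0) this
    exact hne (by rw [e3, e4])
  · intro h
    exfalso
    apply h
    rw [Nat.mem_divisorsAntidiagonal]
    exact ⟨hrs, hn⟩

lemma pw_exp (t n : ℕ) : pw (t : ℝ) n = Complex.exp (Complex.I * (t : ℂ) * ((Real.log (n : ℝ) : ℝ) : ℂ)) := by
  unfold Pool.Agent.W200.MR.pw
  congr 1
  push_cast
  ring

end Pool.Agent.TH445.MQ
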