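import Pool.Agent.TH445.MQ.Alg
import Pool.Agent.W170.MV.Pars
import Pool.Agent.W462.MR.MV2

set_option autoImplicit false

/-!
# The mean value theorem at the integers
-/

open Finset MeasureTheory

namespace Pool.Agent.TH445.MQ

open Pool.Agent.W200.MR (pw)

lemma pw_deriv (n : ℕ) (u : ℝ) :
    HasDerivAt (fun u => pw u n) (((Real.log n : ℝ) : ℂ) * Complex.I * pw u n) u := by
  unfold pw
  have h0 : HasDerivAt (fun u : ℝ => ((u * Real.log n : ℝ) : ℂ)) ((Real.log n : ℝ) : ℂ) u := by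
    have : HasDerivAt (fun u : ℝ => u * Real.log n) (Real.log n) u := by
      simpa using (hasDerivAt_id u).mul_const (Real.log n)
    exact this.ofReal_comp
  have h1 := (h0.mul_const Complex.I).cexp
  convert h1 using 1
  ring

lemma pw_cont (n : ℕ) : Continuous (fun u => pw u n) := by
  unfold pw
  fun_prop

lemma mvt1 (c : ℕ → ℂ) (hc : ∀ n, ‖c n‖ ≤ 1) (T x : ℕ) (hT : 1 ≤ T) (hx1 : 1 ≤ x) (hx : x ≤ T) :
    ∑ i ∈ range T, ‖∑ n ∈ Icc 1 x, c n * pw ((T : ℝ) + i) n‖ ^ 2 ≤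
      15 * (T : ℝ) ^ 2 * (1 + Real.log T) ^ 3 := by
  have hT1 : (1 : ℝ) ≤ T := by exact_mod_cast hT
  have hxT : (x : ℝ) ≤ T := by exact_mod_cast hx
  have hx1' : (1 : ℝ) ≤ x := by exact_mod_cast hx1
  have hlT : 0 ≤ Real.log T := Real.log_nonneg hT1
  have hlx : Real.log x ≤ Real.log T := Real.log_le_log (by linarith) hxT
  have hlx0 : 0 ≤ Real.log x := Real.log_nonneg hx1'
  set ℓ := 1 + Real.log T with hℓ
  have hℓ1 : 1 ≤ ℓ := by linarith
  set h : ℝ → ℂ := fun u => ∑ n ∈ Icc 1 x, c n * pw u n with hh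
  set h' : ℝ → ℂ := fun u => ∑ n ∈ Icc 1 x, c n * (((Real.log n : ℝ) : ℂ) * Complex.I * pw u n)
    with hh'
  have hd : ∀ ξ, HasDerivAt h (h' ξ) ξ := by
    intro ξ
    exact HasDerivAt.fun_sum fun n _ => (pw_deriv n ξ).const_mul (c n)
  have hc1 : Continuous h := continuous_finsetSum _ fun n _ => continuous_const.mul (pw_cont n)
  have hc2 : Continuous h' := continuous_finsetSum _ fun n _ =>
    continuous_const.mul (continuous_const.mul (pw_cont n))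
  have hci : Continuous fun u => 2 * ‖h u‖ ^ 2 + ‖h' u‖ ^ 2 := by fun_prop
  have h1 : ∑ i ∈ range T, ‖h ((T : ℝ) + i)‖ ^ 2 ≤
      ∫ u in (T : ℝ)..(2 * T), (2 * ‖h u‖ ^ 2 + ‖h' u‖ ^ 2) := by
    have e := intervalIntegral.sum_integral_adjacent_intervals (μ := volume)
      (f := fun u => 2 * ‖h u‖ ^ 2 + ‖h' u‖ ^ 2) (a := fun i : ℕ => (T : ℝ) + i) (n := T)
      (fun k _ => hci.intervalIntegrable _ _)
    simp only [Nat.cast_zero, add_zero] at e
    rw [show (T : ℝ) + T = 2 * T by ring] at e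
    rw [← e]
    apply sum_le_sum
    intro i _
    have := Pool.Agent.W170.MV.gall hd hc1 hc2 ((T : ℝ) + i) ((T : ℝ) + i) le_rfl (by linarith)
    have e3 : (T : ℝ) + ((i + 1 : ℕ) : ℝ) = T + i + 1 := by push_cast; ring
    rw [e3]
    exact this
  have h2 : ∫ u in (T : ℝ)..(2 * T), (2 * ‖h u‖ ^ 2 + ‖h' u‖ ^ 2) =
      2 * (∫ u in (T : ℝ)..(2 * T), ‖h u‖ ^ 2) + ∫ u in (T : ℝ)..(2 * T), ‖h' u‖ ^ 2 := by
    rw [intervalIntegral.integral_add (by apply Continuous.intervalIntegrable; fun_prop)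
      (by apply Continuous.intervalIntegrable; fun_prop), intervalIntegral.integral_const_mul]
  have h3 : ∫ u in (T : ℝ)..(2 * T), ‖h u‖ ^ 2 ≤ 5 * (T : ℝ) ^ 2 * ℓ := by
    have := Pool.Agent.W462.MR.t_MV2 c hc x T hx1 hT1
    refine this.trans ?_
    have e1 : (T : ℝ) * x ≤ T ^ 2 := by nlinarith
    have e2 : (x : ℝ) ^ 2 * (1 + Real.log x) ≤ T ^ 2 * ℓ := by
      apply mul_le_mul (by nlinarith) (by linarith) (by linarith) (by positivity)
    nlinarith [sq_nonneg (T : ℝ)]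
  have h4 : ∫ u in (T : ℝ)..(2 * T), ‖h' u‖ ^ 2 ≤ ℓ ^ 2 * (5 * (T : ℝ) ^ 2 * ℓ) := by
    set c' : ℕ → ℂ := fun n => if n ∈ Icc 1 x then
      c n * (((Real.log n / ℓ : ℝ) : ℂ) * Complex.I) else 0 with hc'
    have hc'1 : ∀ n, ‖c' n‖ ≤ 1 := by
      intro n
      simp only [hc']
      split_ifs with hn
      · rw [mem_Icc] at hn
        have hn1 : (1 : ℝ) ≤ n := by exact_mod_cast hn.1
        have hnx : (n : ℝ) ≤ x := by exact_mod_cast hn.2
        have hl0 : 0 ≤ Real.log n := Real.log_nonneg hn1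
        have hl1 : Real.log n ≤ Real.log x := Real.log_le_log (by linarith) hnx
        rw [norm_mul, norm_mul, Complex.norm_I, mul_one, Complex.norm_real, Real.norm_eq_abs,
          abs_of_nonneg (by positivity)]
        have : Real.log n / ℓ ≤ 1 := by
          rw [div_le_one (by linarith)]
          linarith
        exact mul_le_one₀ (hc n) (by positivity) this
      · simp
    have := Pool.Agent.W462.MR.t_MV2 c' hc'1 x T hx1 hT1
    have e0 : ∀ u, ‖h' u‖ ^ 2 = ℓ ^ 2 * ‖∑ n ∈ Icc 1 x, c' n * pw u n‖ ^ 2 := by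
      intro u
      have : h' u = (ℓ : ℂ) * ∑ n ∈ Icc 1 x, c' n * pw u n := by
        rw [hh', mul_sum]
        apply sum_congr rfl
        intro n hn
        simp only [hc', if_pos hn]
        have hℓ0 : (ℓ : ℂ) ≠ 0 := by exact_mod_cast (by linarith : ℓ ≠ 0)
        push_cast
        field_simp
      rw [this, norm_mul, mul_pow, Complex.norm_real, Real.norm_eq_abs, sq_abs]
    simp only [e0]
    rw [intervalIntegral.integral_const_mul]
    apply mul_le_mul_of_nonneg_left _ (by positivity)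
    refine this.trans ?_
    have e1 : (T : ℝ) * x ≤ T ^ 2 := by nlinarith
    have e2 : (x : ℝ) ^ 2 * (1 + Real.log x) ≤ T ^ 2 * ℓ := by
      apply mul_le_mul (by nlinarith) (by linarith) (by linarith) (by positivity)
    nlinarith [sq_nonneg (T : ℝ)]
  refine h1.trans ?_
  rw [h2]
  have h5 : ℓ ≤ ℓ ^ 3 := by nlinarith [sq_nonneg ℓ]
  have h6 : (T : ℝ) ^ 2 * ℓ ≤ T ^ 2 * ℓ ^ 3 := mul_le_mul_of_nonneg_left h5 (by positivity)
  nlinarith

/-- **mean value theorem at the integers** -/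
theorem mvt {X : AF} {B x : ℝ} (hX : Bd X B x) (T : ℕ) (hT : 1 ≤ T) (hx : x ≤ T) (ξ : ℝ) :
    ∑ t ∈ Icc 1 T, ‖ev X ((t : ℝ) + ξ)‖ ^ 2 ≤ 15 * (T : ℝ) ^ 2 * (1 + Real.log T) ^ 3 * B ^ 2 := by
  have hT1 : (1 : ℝ) ≤ T := by exact_mod_cast hT
  have hlT : 0 ≤ Real.log T := Real.log_nonneg hT1
  have hB : 0 ≤ B := (norm_nonneg _).trans (hX.1 0)
  have hz : ∀ n, ⌊x⌋₊ < n → X n = 0 := by
    intro n hn
    by_contra hc
    have h2 : n ≤ ⌊x⌋₊ := Nat.le_floor (hX.2 n hc)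
    omega
  rcases Nat.eq_zero_or_pos ⌊x⌋₊ with h0 | h0
  · have : ∀ t ∈ Icc 1 T, ‖ev X ((t : ℝ) + ξ)‖ ^ 2 = 0 := by
      intro t _
      rw [ev_eq X _ hz, h0]
      simp
    rw [sum_eq_zero this]
    positivity
  rcases hB.eq_or_lt with hB0 | hB0
  · have : ∀ t ∈ Icc 1 T, ‖ev X ((t : ℝ) + ξ)‖ ^ 2 = 0 := by
      intro t _
      rw [ev_eq X _ hz]
      have : ∀ n ∈ Icc 1 ⌊x⌋₊, X n * pw ((t : ℝ) + ξ) n = 0 := by
        intro n _
        have := hX.1 n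
        rw [← hB0] at this
        rw [norm_le_zero_iff.1 this, zero_mul]
      rw [sum_eq_zero this]
      simp
    rw [sum_eq_zero this]
    positivity
  set c : ℕ → ℂ := fun n => X n * pw (ξ - T + 1) n / B with hc
  have hc1 : ∀ n, ‖c n‖ ≤ 1 := by
    intro n
    simp only [hc]
    rw [norm_div, norm_mul, pw_norm, mul_one, Complex.norm_real, Real.norm_eq_abs, abs_of_pos hB0]
    exact (div_le_one hB0).2 (hX.1 n)
  have hfx : ⌊x⌋₊ ≤ T := by
    have : ⌊x⌋₊ ≤ ⌊(T : ℝ)⌋₊ := Nat.floor_le_floor hx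
    rwa [Nat.floor_natCast] at this
  have hm := mvt1 c hc1 T ⌊x⌋₊ hT h0 hfx
  have e1 : ∑ t ∈ Icc 1 T, ‖ev X ((t : ℝ) + ξ)‖ ^ 2 =
      ∑ i ∈ range T, ‖ev X (((i + 1 : ℕ) : ℝ) + ξ)‖ ^ 2 := by
    rw [← Finset.sum_image (f := fun t : ℕ => ‖ev X ((t : ℝ) + ξ)‖ ^ 2)
      (g := fun i : ℕ => i + 1) (s := range T) (by intro a _ b _ h; simpa using h)]
    apply sum_congr _ fun _ _ => rfl
    ext t
    simp only [mem_Icc, mem_image, mem_range]
    constructor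
    · intro h; exact ⟨t - 1, by omega, by omega⟩
    · rintro ⟨i, hi, rfl⟩; omega
  rw [e1]
  have e2 : ∀ i ∈ range T, ‖ev X (((i + 1 : ℕ) : ℝ) + ξ)‖ ^ 2 =
      B ^ 2 * ‖∑ n ∈ Icc 1 ⌊x⌋₊, c n * pw ((T : ℝ) + i) n‖ ^ 2 := by
    intro i _
    have : ev X (((i + 1 : ℕ) : ℝ) + ξ) = (B : ℂ) * ∑ n ∈ Icc 1 ⌊x⌋₊, c n * pw ((T : ℝ) + i) n := by
      rw [ev_eq X _ hz, mul_sum]
      apply sum_congr rfl
      intro n _
      have hB0' : (B : ℂ) ≠ 0 := by exact_mod_cast hB0.ne'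
      rw [show (((i + 1 : ℕ) : ℝ) + ξ) = ((T : ℝ) + i) + (ξ - T + 1) by push_cast; ring, pw_add]
      simp only [hc]
      field_simp
    rw [this, norm_mul, mul_pow, Complex.norm_real, Real.norm_eq_abs, sq_abs]
  rw [sum_congr rfl e2, ← mul_sum]
  calc B ^ 2 * ∑ i ∈ range T, ‖∑ n ∈ Icc 1 ⌊x⌋₊, c n * pw ((T : ℝ) + i) n‖ ^ 2
      ≤ B ^ 2 * (15 * (T : ℝ) ^ 2 * (1 + Real.log T) ^ 3) :=
        mul_le_mul_of_nonneg_left hm (by positivity)
    _ = _ := by ring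

end Pool.Agent.TH445.MQ
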