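import Pool.Agent.TH445.MQ.MV

set_option autoImplicit false

/-!
# Products of short Dirichlet polynomials
-/

open Finset MeasureTheory

namespace Pool.Agent.TH445.MQ

open Pool.Agent.W200.MR (pw)

/-- cyclic index -/
def cy (m : ℕ) (i : Fin (m + 1)) (l : ℕ) : Fin (m + 1) := i + Fin.ofNat (m + 1) l

lemma prod_cy (m : ℕ) (d : Fin (m + 1) → ℝ) (l : ℕ) : ∏ i, d (cy m i l) = ∏ i, d i :=
  Fintype.prod_equiv (Equiv.addRight (Fin.ofNat (m + 1) l)) _ _ fun _ => rfl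

lemma amgm (m M a : ℕ) (υ : ℝ) (hυ : 0 ≤ υ) (d : Fin (m + 1) → ℝ) (hd : ∀ i, 0 ≤ d i) :
    υ ^ (2 * (M : ℝ)) * (∏ i, d i) ^ (2 * (a : ℝ) / (m + 1)) ≤
      ∑ i, (1 / ((m : ℝ) + 1)) * (υ ^ M * ∏ l ∈ range a, d (cy m i l)) ^ 2 := by
  have hm : (0 : ℝ) < (m : ℝ) + 1 := by positivity
  have hP : 0 ≤ ∏ i, d i := prod_nonneg fun i _ => hd i
  have h := Real.geom_mean_le_arith_mean_weighted (univ : Finset (Fin (m + 1)))
    (fun _ => 1 / ((m : ℝ) + 1)) (fun i => (υ ^ M * ∏ l ∈ range a, d (cy m i l)) ^ 2)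
    (fun _ _ => by positivity) (by
      rw [sum_const, card_univ, Fintype.card_fin, nsmul_eq_mul]
      push_cast
      field_simp) (fun _ _ => by positivity)
  refine le_trans (le_of_eq ?_) h
  rw [Real.finsetProd_rpow _ _ (fun _ _ => by positivity)]
  have e1 : ∏ i, (υ ^ M * ∏ l ∈ range a, d (cy m i l)) ^ 2 =
      (υ ^ (2 * M)) ^ (m + 1) * (∏ i, d i) ^ (2 * a) := by
    rw [prod_pow, prod_mul_distrib, prod_const, card_univ, Fintype.card_fin, prod_comm]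
    simp only [prod_cy]
    rw [prod_const, card_range]
    ring
  rw [e1, Real.mul_rpow (by positivity) (by positivity)]
  congr 1
  · rw [← Real.rpow_natCast (υ ^ (2 * M)) (m + 1), ← Real.rpow_mul (by positivity)]
    push_cast
    rw [mul_one_div_cancel hm.ne', Real.rpow_one]
    rw [← Real.rpow_natCast]
    push_cast
    rfl
  · rw [← Real.rpow_natCast, ← Real.rpow_mul hP]
    congr 1
    push_cast
    ring

lemma moment (U : AF) (u : ℝ) (hu : 1 ≤ u) (hU : Bd U 1 u) (m : ℕ) (D : Fin (m + 1) → AF) (Λ : ℝ)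
    (hΛ : 1 ≤ Λ) (hD : ∀ i, Bd (D i) 1 Λ) (T : ℕ) (hT : 1 ≤ T) (Δ : ℝ) (hΔ1 : 1 ≤ Δ)
    (hΔ : ∀ n : ℕ, 1 ≤ n → (n : ℝ) ≤ T → (n.divisors.card : ℝ) ≤ Δ)
    (M a K : ℕ) (hM : u ^ M * Λ ^ a ≤ T) (hK : M + a ≤ K) (ξ : ℝ) :
    ∑ t ∈ Icc 1 T, ‖ev U ((t : ℝ) + ξ)‖ ^ (2 * (M : ℝ)) *
        (∏ i, ‖ev (D i) ((t : ℝ) + ξ)‖) ^ (2 * (a : ℝ) / (m + 1)) ≤
      15 * (T : ℝ) ^ 2 * (1 + Real.log T) ^ 3 * Δ ^ (2 * K) := by
  have hT1 : (1 : ℝ) ≤ T := by exact_mod_cast hT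
  have hlT : 0 ≤ Real.log T := Real.log_nonneg hT1
  have hm : (0 : ℝ) < (m : ℝ) + 1 := by positivity
  set X : Fin (m + 1) → AF := fun i => U ^ M * ∏ l ∈ range a, D (cy m i l) with hX
  have hUM : u ^ M ≤ T := le_trans (le_mul_of_one_le_right (by positivity) (one_le_pow₀ hΛ)) hM
  have hXB : ∀ i, Bd (X i) (Δ ^ K) (u ^ M * Λ ^ a) := by
    intro i
    have h1 := Bd.pow (Δ := Δ) hU hu M hUM hΔ (by linarith)
    have h2 := h1.prod_range (X := fun l => D (cy m i l)) (by positivity) (fun l => hD _) hΛ a hM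
      hΔ (by linarith)
    exact h2.mono (pow_le_pow_right₀ hΔ1 hK) le_rfl
  have hev : ∀ i τ, ev (X i) τ = ev U τ ^ M * ∏ l ∈ range a, ev (D (cy m i l)) τ := by
    intro i τ
    rw [hX, ev_mul (hU.fs.pow M) (FS.prod _ _ fun l _ => (hD _).fs), ev_pow hU.fs,
      ev_prod _ _ fun l _ => (hD _).fs]
  have hpt : ∀ t ∈ Icc 1 T, ‖ev U ((t : ℝ) + ξ)‖ ^ (2 * (M : ℝ)) *
        (∏ i, ‖ev (D i) ((t : ℝ) + ξ)‖) ^ (2 * (a : ℝ) / (m + 1)) ≤
      ∑ i, (1 / ((m : ℝ) + 1)) * ‖ev (X i) ((t : ℝ) + ξ)‖ ^ 2 := by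
    intro t _
    refine (amgm m M a _ (norm_nonneg _) (fun i => ‖ev (D i) ((t : ℝ) + ξ)‖)
      (fun i => norm_nonneg _)).trans (le_of_eq ?_)
    apply sum_congr rfl
    intro i _
    rw [hev, norm_mul, norm_pow, norm_prod]
  refine (sum_le_sum hpt).trans ?_
  rw [sum_comm]
  calc ∑ i, ∑ t ∈ Icc 1 T, (1 / ((m : ℝ) + 1)) * ‖ev (X i) ((t : ℝ) + ξ)‖ ^ 2
      = ∑ i, (1 / ((m : ℝ) + 1)) * ∑ t ∈ Icc 1 T, ‖ev (X i) ((t : ℝ) + ξ)‖ ^ 2 := by
        apply sum_congr rfl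
        intro i _
        rw [mul_sum]
    _ ≤ ∑ _i : Fin (m + 1), (1 / ((m : ℝ) + 1)) *
        (15 * (T : ℝ) ^ 2 * (1 + Real.log T) ^ 3 * (Δ ^ K) ^ 2) := by
        apply sum_le_sum
        intro i _
        exact mul_le_mul_of_nonneg_left (mvt (hXB i) T hT hM ξ) (by positivity)
    _ = 15 * (T : ℝ) ^ 2 * (1 + Real.log T) ^ 3 * Δ ^ (2 * K) := by
        rw [sum_const, card_univ, Fintype.card_fin, nsmul_eq_mul]
        push_cast
        rw [mul_comm 2 K, pow_mul]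
        field_simp

/-- interpolation between two consecutive powers of `U` -/
lemma interp (υ P w c0 c1 : ℝ) (k : ℕ) (hυ : 0 ≤ υ) (hP : 0 ≤ P) (hw0 : 0 ≤ w) (hw1 : w ≤ 1)
    (hc0 : 0 ≤ c0) (hc1 : 0 ≤ c1) :
    υ ^ (2 * ((k : ℝ) + w)) * P ^ ((1 - w) * c0 + w * c1) ≤
      (1 - w) * (υ ^ (2 * (k : ℝ)) * P ^ c0) + w * (υ ^ (2 * ((k + 1 : ℕ) : ℝ)) * P ^ c1) := by
  have h := Real.geom_mean_le_arith_mean2_weighted (w₁ := 1 - w) (w₂ := w)
    (p₁ := υ ^ (2 * (k : ℝ)) * P ^ c0) (p₂ := υ ^ (2 * ((k + 1 : ℕ) : ℝ)) * P ^ c1)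
    (by linarith) hw0 (by positivity) (by positivity) (by ring)
  refine le_trans (le_of_eq ?_) h
  have hw1' : 0 ≤ 1 - w := by linarith
  rw [Real.mul_rpow (by positivity) (by positivity), Real.mul_rpow (by positivity) (by positivity),
    ← Real.rpow_mul hυ, ← Real.rpow_mul hP, ← Real.rpow_mul hυ, ← Real.rpow_mul hP]
  have e1 : υ ^ (2 * ((k : ℝ) + w)) = υ ^ (2 * (k : ℝ) * (1 - w)) * υ ^ (2 * ((k + 1 : ℕ) : ℝ) * w) := by
    rw [← Real.rpow_add_of_nonneg hυ (by positivity) (by positivity)]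
    congr 1
    push_cast
    ring
  have e2 : P ^ ((1 - w) * c0 + w * c1) = P ^ (c0 * (1 - w)) * P ^ (c1 * w) := by
    rw [← Real.rpow_add_of_nonneg hP (by positivity) (by positivity)]
    congr 1
    ring
  rw [e1, e2]
  ring

/-- the number of factors used with `U ^ M` -/
lemma exists_a (u Λ : ℝ) (T : ℕ) (M : ℕ) (hu : 1 ≤ u) (hΛ : 1 < Λ) (hM : u ^ M ≤ T) :
    ∃ a : ℕ, u ^ M * Λ ^ a ≤ T ∧ (a : ℝ) * Real.log Λ ≤ Real.log T - M * Real.log u ∧
      Real.log T - M * Real.log u - Real.log Λ ≤ a * Real.log Λ := by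
  have hlΛ : 0 < Real.log Λ := Real.log_pos hΛ
  have huM : 0 < u ^ M := by positivity
  have hT0 : (0 : ℝ) < T := lt_of_lt_of_le huM hM
  have h0 : 0 ≤ Real.log T - M * Real.log u := by
    rw [← Real.log_pow]
    linarith [Real.log_le_log huM hM]
  refine ⟨⌊(Real.log T - M * Real.log u) / Real.log Λ⌋₊, ?_, ?_, ?_⟩
  · have h1 := Nat.floor_le (div_nonneg h0 hlΛ.le)
    rw [le_div_iff₀ hlΛ] at h1
    rw [← Real.log_le_log_iff (by positivity) hT0, Real.log_mul huM.ne' (by positivity),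
      Real.log_pow, Real.log_pow]
    linarith
  · have h1 := Nat.floor_le (div_nonneg h0 hlΛ.le)
    rwa [le_div_iff₀ hlΛ] at h1
  · have h1 := (Nat.lt_floor_add_one ((Real.log T - M * Real.log u) / Real.log Λ)).le
    rw [div_le_iff₀ hlΛ] at h1
    linarith

/-- **critical moment of a product of short Dirichlet polynomials** -/
theorem crit (U : AF) (u : ℝ) (hu : 1 ≤ u) (hU : Bd U 1 u) (m : ℕ) (D : Fin (m + 1) → AF) (Λ : ℝ)
    (hΛ : 1 < Λ) (hD : ∀ i, Bd (D i) 1 Λ) (T : ℕ) (hT : 1 ≤ T) (Δ : ℝ) (hΔ1 : 1 ≤ Δ)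
    (hΔ : ∀ n : ℕ, 1 ≤ n → (n : ℝ) ≤ T → (n.divisors.card : ℝ) ≤ Δ)
    (γ : ℝ) (hγ : Real.log T = γ * (Real.log u + (m + 1) * Real.log Λ)) (k K : ℕ)
    (hk0 : (k : ℝ) ≤ γ) (hk1 : γ < k + 1) (hk : u ^ (k + 1) ≤ T)
    (hK : Real.log T / Real.log Λ + k + 1 ≤ K) (ξ : ℝ) :
    ∑ t ∈ Icc 1 T, (‖ev U ((t : ℝ) + ξ)‖ * ∏ i, ‖ev (D i) ((t : ℝ) + ξ)‖) ^ (2 * γ) ≤
      Λ ^ 2 * (15 * (T : ℝ) ^ 2 * (1 + Real.log T) ^ 3 * Δ ^ (2 * K)) := by
  have hlΛ : 0 < Real.log Λ := Real.log_pos hΛ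
  have hlu : 0 ≤ Real.log u := Real.log_nonneg hu
  have hT1 : (1 : ℝ) ≤ T := by exact_mod_cast hT
  have hlT : 0 ≤ Real.log T := Real.log_nonneg hT1
  have hm : (0 : ℝ) < (m : ℝ) + 1 := by positivity
  have huk : u ^ k ≤ T := le_trans (pow_le_pow_right₀ hu (Nat.le_succ k)) hk
  obtain ⟨a0, ha0, hb0, hc0⟩ := exists_a u Λ T k hu hΛ huk
  obtain ⟨a1, ha1, hb1, hc1⟩ := exists_a u Λ T (k + 1) hu hΛ hk
  set w := γ - k with hw
  have hw0 : 0 ≤ w := by linarith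
  have hw1 : w ≤ 1 := by linarith
  have hγ0 : 0 ≤ γ := le_trans (Nat.cast_nonneg k) hk0
  have hK0 : k + a0 ≤ K := by
    have : (a0 : ℝ) ≤ Real.log T / Real.log Λ := by
      rw [le_div_iff₀ hlΛ]
      have : 0 ≤ (k : ℝ) * Real.log u := by positivity
      linarith
    have : ((k + a0 : ℕ) : ℝ) ≤ K := by push_cast; linarith
    exact_mod_cast this
  have hK1 : k + 1 + a1 ≤ K := by
    have : (a1 : ℝ) ≤ Real.log T / Real.log Λ := by
      rw [le_div_iff₀ hlΛ]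
      have : 0 ≤ ((k + 1 : ℕ) : ℝ) * Real.log u := by positivity
      linarith
    have : ((k + 1 + a1 : ℕ) : ℝ) ≤ K := by push_cast; linarith
    exact_mod_cast this
  set E := 15 * (T : ℝ) ^ 2 * (1 + Real.log T) ^ 3 * Δ ^ (2 * K) with hE
  have hE0 := moment U u hu hU m D Λ hΛ.le hD T hT Δ hΔ1 hΔ k a0 K ha0 hK0 ξ
  have hE1 := moment U u hu hU m D Λ hΛ.le hD T hT Δ hΔ1 hΔ (k + 1) a1 K ha1 hK1 ξ
  -- the exponent of the product
  set b := (1 - w) * a0 + w * a1 with hb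
  have hbl : b * Real.log Λ ≤ γ * (m + 1) * Real.log Λ := by
    have e1 : (1 - w) * ((a0 : ℝ) * Real.log Λ) ≤ (1 - w) * (Real.log T - k * Real.log u) :=
      mul_le_mul_of_nonneg_left hb0 (by linarith)
    have e2 : w * ((a1 : ℝ) * Real.log Λ) ≤ w * (Real.log T - (k + 1 : ℕ) * Real.log u) :=
      mul_le_mul_of_nonneg_left hb1 hw0
    have e3 : (1 - w) * (Real.log T - k * Real.log u) + w * (Real.log T - (k + 1 : ℕ) * Real.log u) =
        γ * (m + 1) * Real.log Λ := by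
      rw [hγ, hw]
      push_cast
      ring
    rw [hb]
    linarith
  have hbu : γ * (m + 1) * Real.log Λ - Real.log Λ ≤ b * Real.log Λ := by
    have e1 : (1 - w) * (Real.log T - k * Real.log u - Real.log Λ) ≤ (1 - w) * ((a0 : ℝ) * Real.log Λ) :=
      mul_le_mul_of_nonneg_left hc0 (by linarith)
    have e2 : w * (Real.log T - (k + 1 : ℕ) * Real.log u - Real.log Λ) ≤ w * ((a1 : ℝ) * Real.log Λ) :=
      mul_le_mul_of_nonneg_left hc1 hw0
    have e3 : (1 - w) * (Real.log T - k * Real.log u - Real.log Λ) +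
        w * (Real.log T - (k + 1 : ℕ) * Real.log u - Real.log Λ) =
        γ * (m + 1) * Real.log Λ - Real.log Λ := by
      rw [hγ, hw]
      push_cast
      ring
    rw [hb]
    linarith
  have hbl' : b ≤ γ * (m + 1) := le_of_mul_le_mul_right hbl hlΛ
  have hbu' : γ * (m + 1) - 1 ≤ b := by
    apply le_of_mul_le_mul_right _ hlΛ
    linarith
  have hb0' : 0 ≤ b := by
    rw [hb]
    have : 0 ≤ 1 - w := by linarith
    positivity
  have hpt : ∀ t ∈ Icc 1 T, (‖ev U ((t : ℝ) + ξ)‖ * ∏ i, ‖ev (D i) ((t : ℝ) + ξ)‖) ^ (2 * γ) ≤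
      Λ ^ 2 * ((1 - w) * (‖ev U ((t : ℝ) + ξ)‖ ^ (2 * (k : ℝ)) *
        (∏ i, ‖ev (D i) ((t : ℝ) + ξ)‖) ^ (2 * (a0 : ℝ) / (m + 1))) +
        w * (‖ev U ((t : ℝ) + ξ)‖ ^ (2 * ((k + 1 : ℕ) : ℝ)) *
        (∏ i, ‖ev (D i) ((t : ℝ) + ξ)‖) ^ (2 * (a1 : ℝ) / (m + 1)))) := by
    intro t _
    set υ := ‖ev U ((t : ℝ) + ξ)‖ with hυ
    set P := ∏ i, ‖ev (D i) ((t : ℝ) + ξ)‖ with hP
    have hυ0 : 0 ≤ υ := norm_nonneg _
    have hP0 : 0 ≤ P := prod_nonneg fun _ _ => norm_nonneg _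
    have hPΛ : P ≤ Λ ^ (m + 1) := by
      calc P ≤ ∏ _i : Fin (m + 1), Λ := by
            apply prod_le_prod (fun _ _ => norm_nonneg _)
            intro i _
            have := (hD i).ev_le (by linarith) ((t : ℝ) + ξ)
            rwa [mul_one] at this
        _ = Λ ^ (m + 1) := by rw [prod_const, card_univ, Fintype.card_fin]
    have h1 := interp υ P w (2 * (a0 : ℝ) / (m + 1)) (2 * (a1 : ℝ) / (m + 1)) k hυ0 hP0 hw0 hw1
      (by positivity) (by positivity)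
    have e1 : (k : ℝ) + w = γ := by rw [hw]; ring
    have e2 : (1 - w) * (2 * (a0 : ℝ) / (m + 1)) + w * (2 * (a1 : ℝ) / (m + 1)) = 2 * b / (m + 1) := by
      rw [hb]; ring
    rw [e1, e2] at h1
    rw [Real.mul_rpow hυ0 hP0]
    have e3 : P ^ (2 * γ) ≤ P ^ (2 * b / (m + 1)) * Λ ^ 2 := by
      have hexp : 0 ≤ 2 * γ - 2 * b / (m + 1) := by
        rw [sub_nonneg, div_le_iff₀ hm]
        linarith
      have e4 : P ^ (2 * γ) = P ^ (2 * b / (m + 1)) * P ^ (2 * γ - 2 * b / (m + 1)) := by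
        rw [← Real.rpow_add_of_nonneg hP0 (by positivity) hexp]
        congr 1
        ring
      rw [e4]
      apply mul_le_mul_of_nonneg_left _ (by positivity)
      calc P ^ (2 * γ - 2 * b / (m + 1)) ≤ (Λ ^ (m + 1)) ^ (2 * γ - 2 * b / (m + 1)) :=
            Real.rpow_le_rpow hP0 hPΛ hexp
        _ = Λ ^ (((m + 1 : ℕ) : ℝ) * (2 * γ - 2 * b / (m + 1))) := by
            rw [← Real.rpow_natCast, ← Real.rpow_mul (by linarith)]
        _ ≤ Λ ^ (2 : ℝ) := by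
            apply Real.rpow_le_rpow_of_exponent_le hΛ.le
            push_cast
            have : ((m : ℝ) + 1) * (2 * γ - 2 * b / (m + 1)) = 2 * (γ * (m + 1) - b) := by
              field_simp
            rw [this]
            linarith
        _ = Λ ^ 2 := by norm_num
    calc υ ^ (2 * γ) * P ^ (2 * γ) ≤ υ ^ (2 * γ) * (P ^ (2 * b / (m + 1)) * Λ ^ 2) :=
          mul_le_mul_of_nonneg_left e3 (by positivity)
      _ = Λ ^ 2 * (υ ^ (2 * γ) * P ^ (2 * b / (m + 1))) := by ring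
      _ ≤ _ := mul_le_mul_of_nonneg_left h1 (by positivity)
  refine (sum_le_sum hpt).trans ?_
  rw [← mul_sum]
  apply mul_le_mul_of_nonneg_left _ (by positivity)
  rw [sum_add_distrib, ← mul_sum, ← mul_sum]
  have f1 := mul_le_mul_of_nonneg_left hE0 (by linarith : 0 ≤ 1 - w)
  have f2 := mul_le_mul_of_nonneg_left hE1 hw0
  calc _ ≤ (1 - w) * E + w * E := add_le_add f1 f2
    _ = E := by ring

/-- **all moments of a product of short Dirichlet polynomials** -/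
theorem all_moments (U : AF) (u : ℝ) (hu : 1 ≤ u) (hU : Bd U 1 u) (m : ℕ) (D : Fin (m + 1) → AF)
    (Λ : ℝ) (hΛ : 1 < Λ) (hD : ∀ i, Bd (D i) 1 Λ) (T : ℕ) (hT : 1 ≤ T) (Δ : ℝ) (hΔ1 : 1 ≤ Δ)
    (hΔ : ∀ n : ℕ, 1 ≤ n → (n : ℝ) ≤ T → (n.divisors.card : ℝ) ≤ Δ)
    (L : ℝ) (hL : L = u * Λ ^ (m + 1)) (k K : ℕ)
    (hkT : Real.log T < (k + 1) * Real.log L) (hk : u ^ (k + 1) ≤ T)
    (hK : Real.log T / Real.log Λ + k + 1 ≤ K) (q : ℝ) (hq : 0 ≤ q) (ξ : ℝ) :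
    ∑ t ∈ Icc 1 T, ‖ev U ((t : ℝ) + ξ) * ∏ i, ev (D i) ((t : ℝ) + ξ)‖ ^ q ≤
      30 * Λ ^ 2 * (1 + Real.log T) ^ 3 * Δ ^ (2 * K) * (L ^ q + T * L ^ (q / 2)) := by
  have hlΛ : 0 < Real.log Λ := Real.log_pos hΛ
  have hlu : 0 ≤ Real.log u := Real.log_nonneg hu
  have hT1 : (1 : ℝ) ≤ T := by exact_mod_cast hT
  have hT0 : (0 : ℝ) < T := by linarith
  have hlT : 0 ≤ Real.log T := Real.log_nonneg hT1
  have hm : (0 : ℝ) < (m : ℝ) + 1 := by positivity
  have hu0 : 0 < u := by linarith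
  have hΛ0 : 0 < Λ := by linarith
  have hL0 : 0 < L := by rw [hL]; positivity
  have hlL : Real.log L = Real.log u + (m + 1) * Real.log Λ := by
    rw [hL, Real.log_mul hu0.ne' (by positivity), Real.log_pow]
    push_cast
    ring
  have hlL0 : 0 < Real.log L := by
    rw [hlL]
    have : 0 < ((m : ℝ) + 1) * Real.log Λ := by positivity
    linarith
  set γ := Real.log T / Real.log L with hγdef
  have hγ0 : 0 ≤ γ := div_nonneg hlT hlL0.le
  have hγ : Real.log T = γ * (Real.log u + (m + 1) * Real.log Λ) := by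
    rw [← hlL, hγdef]
    field_simp
  have hTL : (T : ℝ) = L ^ γ := by
    rw [Real.rpow_def_of_pos hL0, hlL, mul_comm, ← hγ, Real.exp_log hT0]
  set k' := ⌊γ⌋₊ with hk'
  have hk'0 : (k' : ℝ) ≤ γ := Nat.floor_le hγ0
  have hk'1 : γ < k' + 1 := Nat.lt_floor_add_one γ
  have hkk : k' ≤ k := by
    have h1 : γ < k + 1 := by
      rw [hγdef, div_lt_iff₀ hlL0]
      exact hkT
    have h2 : (k' : ℝ) < ((k + 1 : ℕ) : ℝ) := by push_cast; linarith
    have h3 : k' < k + 1 := by exact_mod_cast h2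
    omega
  have hk'' : u ^ (k' + 1) ≤ T := le_trans (pow_le_pow_right₀ hu (by omega)) hk
  have hK' : Real.log T / Real.log Λ + k' + 1 ≤ K := by
    have : (k' : ℝ) ≤ k := by exact_mod_cast hkk
    linarith
  have hc := crit U u hu hU m D Λ hΛ hD T hT Δ hΔ1 hΔ γ hγ k' K hk'0 hk'1 hk'' hK' ξ
  set F := Λ ^ 2 * (15 * (1 + Real.log T) ^ 3 * Δ ^ (2 * K)) with hF
  have hF1 : 1 ≤ F := by
    have h1 : 1 ≤ Λ ^ 2 := one_le_pow₀ hΛ.le
    have h2 : 1 ≤ (1 + Real.log T) ^ 3 := one_le_pow₀ (by linarith)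
    have h3 : 1 ≤ Δ ^ (2 * K) := one_le_pow₀ hΔ1
    have h4 : 1 ≤ 15 * (1 + Real.log T) ^ 3 * Δ ^ (2 * K) := by nlinarith
    calc (1 : ℝ) = 1 * 1 := by ring
      _ ≤ F := mul_le_mul h1 h4 (by norm_num) (by positivity)
  have hc' : ∑ t ∈ Icc 1 T, (‖ev U ((t : ℝ) + ξ)‖ * ∏ i, ‖ev (D i) ((t : ℝ) + ξ)‖) ^ (2 * γ) ≤
      F * (T : ℝ) ^ 2 := by
    refine hc.trans (le_of_eq ?_)
    rw [hF]
    ring
  have hgoal : ∑ t ∈ Icc 1 T, (‖ev U ((t : ℝ) + ξ)‖ * ∏ i, ‖ev (D i) ((t : ℝ) + ξ)‖) ^ q ≤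
      2 * F * (L ^ q + T * L ^ (q / 2)) := by
    rcases le_or_gt (2 * γ) q with hq2 | hq2
    · have hpt : ∀ t ∈ Icc 1 T, (‖ev U ((t : ℝ) + ξ)‖ * ∏ i, ‖ev (D i) ((t : ℝ) + ξ)‖) ^ q ≤
          L ^ (q - 2 * γ) *
            (‖ev U ((t : ℝ) + ξ)‖ * ∏ i, ‖ev (D i) ((t : ℝ) + ξ)‖) ^ (2 * γ) := by
        intro t _
        set x := ‖ev U ((t : ℝ) + ξ)‖ * ∏ i, ‖ev (D i) ((t : ℝ) + ξ)‖ with hx
        have hx0 : 0 ≤ x := mul_nonneg (norm_nonneg _) (prod_nonneg fun _ _ => norm_nonneg _)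
        have hxL : x ≤ L := by
          rw [hx, hL]
          apply mul_le_mul _ _ (prod_nonneg fun _ _ => norm_nonneg _) hu0.le
          · have := hU.ev_le hu0.le ((t : ℝ) + ξ)
            rwa [mul_one] at this
          · calc ∏ i, ‖ev (D i) ((t : ℝ) + ξ)‖ ≤ ∏ _i : Fin (m + 1), Λ := by
                  apply prod_le_prod (fun _ _ => norm_nonneg _)
                  intro i _
                  have := (hD i).ev_le hΛ0.le ((t : ℝ) + ξ)
                  rwa [mul_one] at this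
              _ = Λ ^ (m + 1) := by rw [prod_const, card_univ, Fintype.card_fin]
        have e : x ^ q = x ^ (2 * γ) * x ^ (q - 2 * γ) := by
          rw [← Real.rpow_add_of_nonneg hx0 (by positivity) (by linarith)]
          congr 1
          ring
        rw [e, mul_comm]
        exact mul_le_mul_of_nonneg_right (Real.rpow_le_rpow hx0 hxL (by linarith)) (by positivity)
      refine (sum_le_sum hpt).trans ?_
      rw [← mul_sum]
      calc L ^ (q - 2 * γ) * _ ≤ L ^ (q - 2 * γ) * (F * (T : ℝ) ^ 2) :=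
            mul_le_mul_of_nonneg_left hc' (by positivity)
        _ = F * L ^ q := by
            have : (T : ℝ) ^ 2 = L ^ (2 * γ) := by
              rw [hTL, ← Real.rpow_natCast (L ^ γ) 2, ← Real.rpow_mul hL0.le]
              congr 1
              push_cast
              ring
            rw [this]
            calc L ^ (q - 2 * γ) * (F * L ^ (2 * γ)) = F * (L ^ (q - 2 * γ) * L ^ (2 * γ)) := by ring
              _ = F * L ^ q := by
                  rw [← Real.rpow_add hL0]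
                  congr 2
                  ring
        _ ≤ 2 * F * (L ^ q + T * L ^ (q / 2)) := by
            have h1 : 0 ≤ L ^ q := by positivity
            have h2 : 0 ≤ (T : ℝ) * L ^ (q / 2) := by positivity
            have h3 : 0 ≤ F := by linarith
            nlinarith [mul_nonneg h3 h1, mul_nonneg h3 h2]
    · have hpt : ∀ t ∈ Icc 1 T, (‖ev U ((t : ℝ) + ξ)‖ * ∏ i, ‖ev (D i) ((t : ℝ) + ξ)‖) ^ q ≤
          L ^ (q / 2) + L ^ (q / 2 - γ) *
            (‖ev U ((t : ℝ) + ξ)‖ * ∏ i, ‖ev (D i) ((t : ℝ) + ξ)‖) ^ (2 * γ) := by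
        intro t _
        set x := ‖ev U ((t : ℝ) + ξ)‖ * ∏ i, ‖ev (D i) ((t : ℝ) + ξ)‖ with hx
        have hx0 : 0 ≤ x := mul_nonneg (norm_nonneg _) (prod_nonneg fun _ _ => norm_nonneg _)
        set R := L ^ (1 / 2 : ℝ) with hR
        have hR0 : 0 < R := by positivity
        have hRq : R ^ q = L ^ (q / 2) := by
          rw [hR, ← Real.rpow_mul hL0.le]
          congr 1
          ring
        have hRγ : R ^ (2 * γ) = L ^ γ := by
          rw [hR, ← Real.rpow_mul hL0.le]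
          congr 1
          ring
        rcases le_or_gt x R with h1 | h1
        · calc x ^ q ≤ R ^ q := Real.rpow_le_rpow hx0 h1 hq
            _ = L ^ (q / 2) := hRq
            _ ≤ _ := le_add_of_nonneg_right (by positivity)
        · have h2 : 1 ≤ x / R := by rw [le_div_iff₀ hR0]; linarith
          have h3 : (x / R) ^ q ≤ (x / R) ^ (2 * γ) :=
            Real.rpow_le_rpow_of_exponent_le h2 hq2.le
          rw [Real.div_rpow hx0 hR0.le, Real.div_rpow hx0 hR0.le, hRq, hRγ,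
            div_le_div_iff₀ (by positivity) (by positivity)] at h3
          have h4 : x ^ q ≤ L ^ (q / 2 - γ) * x ^ (2 * γ) := by
            rw [Real.rpow_sub hL0, div_mul_eq_mul_div, le_div_iff₀ (by positivity)]
            linarith
          exact h4.trans (le_add_of_nonneg_left (by positivity))
      refine (sum_le_sum hpt).trans ?_
      rw [sum_add_distrib, ← mul_sum, sum_const, Nat.card_Icc, nsmul_eq_mul]
      have h5 : L ^ (q / 2 - γ) * ∑ t ∈ Icc 1 T,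
          (‖ev U ((t : ℝ) + ξ)‖ * ∏ i, ‖ev (D i) ((t : ℝ) + ξ)‖) ^ (2 * γ) ≤ F * (T * L ^ (q / 2)) := by
        calc _ ≤ L ^ (q / 2 - γ) * (F * (T : ℝ) ^ 2) := mul_le_mul_of_nonneg_left hc' (by positivity)
          _ = F * (T * L ^ (q / 2)) := by
              have h6 : L ^ (q / 2) = L ^ (q / 2 - γ) * T := by
                rw [hTL, ← Real.rpow_add hL0]
                congr 1
                ring
              rw [h6]
              ring
      have h7 : ((T + 1 - 1 : ℕ) : ℝ) * L ^ (q / 2) = T * L ^ (q / 2) := by simp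
      rw [h7]
      have h8 : 0 ≤ L ^ q := by positivity
      have h9 : 0 ≤ (T : ℝ) * L ^ (q / 2) := by positivity
      have h10 : 0 ≤ F := by linarith
      nlinarith [mul_nonneg h10 h8, mul_nonneg h10 h9]
  calc _ = ∑ t ∈ Icc 1 T, (‖ev U ((t : ℝ) + ξ)‖ * ∏ i, ‖ev (D i) ((t : ℝ) + ξ)‖) ^ q := by
        apply sum_congr rfl
        intro t _
        rw [norm_mul, norm_prod]
    _ ≤ 2 * F * (L ^ q + T * L ^ (q / 2)) := hgoal
    _ = _ := by rw [hF]; ring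

end Pool.Agent.TH445.MQ
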