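import Pool.Agent.TH445.MQ.Prod
import Pool.Agent.TH445.MQ.Cut
import Pool.Agent.TH445.MQ.Dec

set_option autoImplicit false

/-!
# The recursion over blocks
-/

open Finset MeasureTheory

namespace Pool.Agent.TH445.MQ

open Pool.Agent.W200.MR (pw)

/-- the moment -/
noncomputable def SS (N T : ℕ) (q : ℝ) (X : AF) : ℝ := ∑ t ∈ Icc 1 T, ‖cut N X (t : ℝ)‖ ^ q

lemma SS_nonneg (N T : ℕ) (q : ℝ) (X : AF) : 0 ≤ SS N T q X :=
  sum_nonneg fun _ _ => by positivity

lemma cut_sum {ι : Type*} (N : ℕ) (s : Finset ι) (X : ι → AF) (τ : ℝ) :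
    cut N (∑ i ∈ s, X i) τ = ∑ i ∈ s, cut N (X i) τ := by
  classical
  unfold cut
  rw [sum_comm]
  apply sum_congr rfl
  intro n _
  rw [← sum_mul]
  congr 1
  induction s using Finset.induction_on with
  | empty => simp
  | insert a s ha ih => rw [sum_insert ha, sum_insert ha, ArithmeticFunction.add_apply, ih]

lemma SS_sum {ι : Type*} (N T : ℕ) (q : ℝ) (hq : 1 ≤ q) (s : Finset ι) (X : ι → AF) :
    SS N T q (∑ i ∈ s, X i) ≤ (s.card : ℝ) ^ (q - 1) * ∑ i ∈ s, SS N T q (X i) := by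
  unfold SS
  rw [sum_comm, mul_sum]
  apply sum_le_sum
  intro t _
  rw [cut_sum]
  refine (Real.rpow_le_rpow (norm_nonneg _) (norm_sum_le _ _) (by linarith)).trans ?_
  exact Real.rpow_sum_le_const_mul_sum_rpow_of_nonneg s hq fun _ _ => norm_nonneg _

lemma SS_congr {N T : ℕ} {q : ℝ} {X Y : AF} (h : ∀ n ∈ Icc N (2 * N), X n = Y n) :
    SS N T q X = SS N T q Y := by
  unfold SS
  apply sum_congr rfl
  intro t _
  congr 2
  unfold cut
  apply sum_congr rfl
  intro n hn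
  rw [h n hn]

lemma SS_zero {N T : ℕ} {q : ℝ} (hq : 1 ≤ q) {X : AF} (h : ∀ n ∈ Icc N (2 * N), X n = 0) :
    SS N T q X = 0 := by
  unfold SS
  apply sum_eq_zero
  intro t _
  have : cut N X (t : ℝ) = 0 := by
    unfold cut
    apply sum_eq_zero
    intro n hn
    rw [h n hn, zero_mul]
  rw [this, norm_zero, Real.zero_rpow (by linarith)]

/-- support `≤ x` -/
def Le (X : AF) (x : ℝ) : Prop := ∀ n, X n ≠ 0 → (n : ℝ) ≤ x
/-- support `≥ x` -/
def Ge (X : AF) (x : ℝ) : Prop := ∀ n, X n ≠ 0 → x ≤ (n : ℝ)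

lemma mul_ne {X Y : AF} {n : ℕ} (h : (X * Y) n ≠ 0) : ∃ a b, a * b = n ∧ X a ≠ 0 ∧ Y b ≠ 0 := by
  rw [ArithmeticFunction.mul_apply] at h
  obtain ⟨⟨a, b⟩, hab, hne⟩ := exists_ne_zero_of_sum_ne_zero h
  rw [Nat.mem_divisorsAntidiagonal] at hab
  exact ⟨a, b, hab.1, left_ne_zero_of_mul hne, right_ne_zero_of_mul hne⟩

lemma Le.mul {X Y : AF} {x y : ℝ} (hX : Le X x) (hY : Le Y y) (hx : 0 ≤ x) : Le (X * Y) (x * y) := by
  intro n hn
  obtain ⟨a, b, hab, ha, hb⟩ := mul_ne hn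
  rw [← hab]
  push_cast
  exact mul_le_mul (hX a ha) (hY b hb) (Nat.cast_nonneg _) hx

lemma Ge.mul {X Y : AF} {x y : ℝ} (hX : Ge X x) (hY : Ge Y y) (hy : 0 ≤ y) : Ge (X * Y) (x * y) := by
  intro n hn
  obtain ⟨a, b, hab, ha, hb⟩ := mul_ne hn
  rw [← hab]
  push_cast
  exact mul_le_mul (hX a ha) (hY b hb) hy (Nat.cast_nonneg _)

lemma Ge.base (X : AF) : Ge X 1 := by
  intro n hn
  have : n ≠ 0 := by rintro rfl; simp at hn
  exact_mod_cast Nat.one_le_iff_ne_zero.2 this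

lemma Ge.list {l : List AF} {M : ℝ} (hM : 0 ≤ M) (h : ∀ B ∈ l, Ge B M) : Ge l.prod (M ^ l.length) := by
  induction l with
  | nil => simpa using Ge.base 1
  | cons B l ih =>
    rw [List.prod_cons, List.length_cons, pow_succ, mul_comm (M ^ _)]
    exact (h B (by simp)).mul (ih fun C hC => h C (by simp [hC])) (by positivity)

lemma Le.list {l : List AF} {Λ : ℝ} (hΛ : 0 ≤ Λ) (h : ∀ B ∈ l, Le B Λ) : Le l.prod (Λ ^ l.length) := by
  induction l with
  | nil =>
    intro n hn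
    have : n = 1 := by
      by_contra hc
      exact hn (ArithmeticFunction.one_apply_ne hc)
    simp [this]
  | cons B l ih =>
    rw [List.prod_cons, List.length_cons, pow_succ, mul_comm (Λ ^ _)]
    exact (h B (by simp)).mul (ih fun C hC => h C (by simp [hC])) hΛ

lemma FS.list {l : List AF} (h : ∀ B ∈ l, FS B) : FS l.prod := by
  induction l with
  | nil => exact FS.one
  | cons B l ih =>
    rw [List.prod_cons]
    exact (h B (by simp)).mul (ih fun C hC => h C (by simp [hC]))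

/-- the bound for a product -/
noncomputable def WW (C η Δ M : ℝ) (N T y J K : ℕ) (q : ℝ) : ℝ :=
  (C * (N : ℝ) ^ η) ^ q * (30 * (M * y) ^ 2 * (1 + Real.log T) ^ 3 * Δ ^ (2 * K) *
    (2 * (y : ℝ) ^ J * (M * y)) ^ q * ((N : ℝ) ^ q + T * (N : ℝ) ^ (q / 2)))

lemma WW_nonneg {C η Δ M : ℝ} {N T y J K : ℕ} {q : ℝ} (hC : 0 ≤ C) (hΔ : 0 ≤ Δ) (hM : 0 ≤ M)
    (hT : 1 ≤ T) : 0 ≤ WW C η Δ M N T y J K q := by
  unfold WW
  have : 0 ≤ Real.log T := Real.log_nonneg (by exact_mod_cast hT)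
  positivity

theorem leaf {N T k y J K : ℕ} (hN : 2 ≤ N) (hNT : N ≤ T) (hk : T < N ^ (k + 1)) (hy : 1 ≤ y)
    {M Δ η C q : ℝ} (hM : 1 < M) (hΔ1 : 1 ≤ Δ) (hC : 1 ≤ C) (hq : 1 ≤ q)
    (hΔ : ∀ n : ℕ, 1 ≤ n → (n : ℝ) ≤ T → (n.divisors.card : ℝ) ≤ Δ)
    (hK : Real.log T / Real.log M + k + 1 ≤ K)
    (hcut : ∀ X : AF, FS X → ∀ (T : ℕ) (q W : ℝ), 1 ≤ q →
      (∀ ξ : ℝ, ∑ t ∈ Icc 1 T, ‖ev X ((t : ℝ) + ξ)‖ ^ q ≤ W) →
      ∑ t ∈ Icc 1 T, ‖cut N X (t : ℝ)‖ ^ q ≤ (C * (N : ℝ) ^ η) ^ q * W)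
    (G : AF) (hG : ∀ n, ‖G n‖ ≤ 1) (hGs : ∀ n, G n ≠ 0 → n ^ (k + 1) ≤ T)
    (l : List AF) (hl : ∀ B ∈ l, Bd B 1 (M * y) ∧ Ge B M) (hlJ : l.length ≤ J)
    (Lw : AF) (hLw : Bd Lw 1 (M * y)) :
    SS N T q (G * l.prod * Lw) ≤ WW C η Δ M N T y J K q := by
  have hy1 : (1 : ℝ) ≤ y := by exact_mod_cast hy
  have hN0 : (0 : ℝ) < N := by exact_mod_cast (by omega : 0 < N)
  have hT1 : 1 ≤ T := by omega
  have hT1' : (1 : ℝ) ≤ T := by exact_mod_cast hT1
  have hlT : 0 ≤ Real.log T := Real.log_nonneg hT1'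
  have hlM : 0 < Real.log M := Real.log_pos hM
  have hM0 : 0 < M := by linarith
  have hW0 : 0 ≤ WW C η Δ M N T y J K q := WW_nonneg (by linarith) (by linarith) hM0.le hT1
  set Λ := M * y with hΛdef
  have hMΛ : M ≤ Λ := by rw [hΛdef]; nlinarith
  have hΛ : 1 < Λ := by linarith
  have hlΛ : Real.log M ≤ Real.log Λ := Real.log_le_log hM0 hMΛ
  set j := l.length with hj
  set u : ℝ := min ((T : ℝ) ^ (1 / ((k : ℝ) + 1))) (2 * N / M ^ j) with hu
  have huT : u ^ (k + 1) ≤ T := by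
    have hu0 : 0 ≤ u := le_min (by positivity) (by positivity)
    calc u ^ (k + 1) ≤ ((T : ℝ) ^ (1 / ((k : ℝ) + 1))) ^ (k + 1) :=
          pow_le_pow_left₀ hu0 (min_le_left _ _) _
      _ = T := by
          rw [← Real.rpow_natCast, ← Real.rpow_mul (by linarith)]
          push_cast
          rw [one_div_mul_cancel (by positivity), Real.rpow_one]
  have hu2 : u * M ^ j ≤ 2 * N := by
    have := min_le_right ((T : ℝ) ^ (1 / ((k : ℝ) + 1))) (2 * N / M ^ j)
    rw [← hu, le_div_iff₀ (by positivity)] at this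
    exact this
  set G' : AF := ⟨fun n => if (n : ℝ) ≤ u then G n else 0, by simp⟩ with hG'
  have hG'a : ∀ n, G' n = if (n : ℝ) ≤ u then G n else 0 := fun n => rfl
  have hGeP : Ge (l.prod * Lw) (M ^ j) := by
    have := (Ge.list hM0.le fun B hB => (hl B hB).2).mul (Ge.base Lw) (by norm_num)
    rwa [mul_one] at this
  have hcongr : ∀ n ∈ Icc N (2 * N), (G * l.prod * Lw) n = (G' * l.prod * Lw) n := by
    intro n hn
    rw [mul_assoc, mul_assoc, ArithmeticFunction.mul_apply, ArithmeticFunction.mul_apply]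
    apply sum_congr rfl
    rintro ⟨a, b⟩ hab
    rw [Nat.mem_divisorsAntidiagonal] at hab
    simp only at hab ⊢
    by_cases hb : (l.prod * Lw) b = 0
    · rw [hb, mul_zero, mul_zero]
    · congr 1
      rw [hG'a]
      by_cases ha : G a = 0
      · rw [ha]; simp
      · rw [if_pos]
        have h1 := hGeP b hb
        have h2 := hGs a ha
        apply le_min
        · have h3 : (a : ℝ) ^ (k + 1) ≤ T := by exact_mod_cast h2
          have h4 := Real.rpow_le_rpow (by positivity) h3 (by positivity : 0 ≤ 1 / ((k : ℝ) + 1))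
          rw [← Real.rpow_natCast, ← Real.rpow_mul (by positivity)] at h4
          push_cast at h4
          rwa [mul_one_div_cancel (by positivity), Real.rpow_one] at h4
        · rw [le_div_iff₀ (by positivity)]
          have h5 : (n : ℝ) ≤ 2 * N := by exact_mod_cast (mem_Icc.1 hn).2
          rw [← hab.1] at h5
          push_cast at h5
          have h6 : (a : ℝ) * M ^ j ≤ a * b := mul_le_mul_of_nonneg_left h1 (Nat.cast_nonneg _)
          linarith
  rw [SS_congr hcongr]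
  have hG'Bd : Bd G' 1 u := by
    refine ⟨fun n => ?_, fun n hn => ?_⟩
    · rw [hG'a]
      split_ifs
      · exact hG n
      · simp
    · rw [hG'a] at hn
      by_contra hc
      rw [if_neg hc] at hn
      exact hn rfl
  rcases lt_or_ge u 1 with hu1 | hu1
  · rw [SS_zero hq]
    · exact hW0
    · intro n hn
      by_contra hc
      rw [mul_assoc] at hc
      obtain ⟨a, b, _, ha, _⟩ := mul_ne hc
      have h1 := Ge.base G' a ha
      have h2 := hG'Bd.2 a ha
      linarith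
  set L := u * Λ ^ (j + 1) with hL
  have hu0 : 0 ≤ u := by linarith
  rcases lt_or_ge L N with hLN | hLN
  · rw [SS_zero hq]
    · exact hW0
    · intro n hn
      by_contra hc
      have h1 : Le (G' * l.prod * Lw) (u * Λ ^ j * Λ) := by
        apply Le.mul _ (fun n hn => hLw.2 n hn) (by positivity)
        apply Le.mul (fun n hn => hG'Bd.2 n hn) _ hu0
        exact Le.list (by linarith) fun B hB => (hl B hB).1.2
      have h2 := h1 n hc
      have h3 : (N : ℝ) ≤ n := by exact_mod_cast (mem_Icc.1 hn).1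
      rw [mul_assoc, ← pow_succ] at h2
      linarith
  -- main case
  have hlen : (Lw :: l).length = j + 1 := by rw [List.length_cons]
  obtain ⟨D, hD⟩ : ∃ D : Fin (j + 1) → AF, D = fun i => (Lw :: l).get (Fin.cast hlen.symm i) :=
    ⟨_, rfl⟩
  have hDB : ∀ i, Bd (D i) 1 Λ := by
    intro i
    have hmem : D i ∈ Lw :: l := by rw [hD]; exact List.get_mem _ _
    rcases List.mem_cons.1 hmem with h | h
    · rw [h]; exact hLw
    · exact (hl _ h).1
  have hprod : ∏ i, D i = Lw * l.prod := by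
    rw [hD, ← List.prod_cons, ← Fin.prod_univ_getElem (Lw :: l)]
    exact Fintype.prod_equiv (finCongr hlen.symm) _ _ (fun i => rfl)
  have hX : ∀ τ, ev (G' * l.prod * Lw) τ = ev G' τ * ∏ i, ev (D i) τ := by
    intro τ
    have e : G' * l.prod * Lw = G' * ∏ i, D i := by rw [hprod]; ring
    rw [e, ev_mul hG'Bd.fs (FS.prod _ _ fun i _ => (hDB i).fs), ev_prod _ _ fun i _ => (hDB i).fs]
  have hFS : FS (G' * l.prod * Lw) :=
    (hG'Bd.fs.mul (FS.list fun B hB => (hl B hB).1.fs)).mul hLw.fs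
  have hkT : Real.log T < (k + 1) * Real.log L := by
    have h1 : Real.log T < Real.log ((N : ℝ) ^ (k + 1)) :=
      Real.log_lt_log (by linarith) (by exact_mod_cast hk)
    rw [Real.log_pow] at h1
    have h2 : Real.log N ≤ Real.log L := Real.log_le_log hN0 hLN
    push_cast at h1
    have h3 : ((k : ℝ) + 1) * Real.log N ≤ (k + 1) * Real.log L :=
      mul_le_mul_of_nonneg_left h2 (by positivity)
    linarith
  have hK' : Real.log T / Real.log Λ + k + 1 ≤ K := by
    have : Real.log T / Real.log Λ ≤ Real.log T / Real.log M :=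
      div_le_div_of_nonneg_left hlT hlM hlΛ
    linarith
  have hmom := hcut (G' * l.prod * Lw) hFS T q
    (30 * Λ ^ 2 * (1 + Real.log T) ^ 3 * Δ ^ (2 * K) * (L ^ q + T * L ^ (q / 2))) hq (by
      intro ξ
      simp only [hX]
      exact all_moments G' u hu1 hG'Bd j D Λ hΛ hDB T hT1 Δ hΔ1 hΔ L hL k K hkT huT hK' q
        (by linarith) ξ)
  refine hmom.trans ?_
  unfold WW
  apply mul_le_mul_of_nonneg_left _ (by positivity)
  set R := 2 * (y : ℝ) ^ J * Λ with hR
  have hyJ : 1 ≤ (y : ℝ) ^ J := one_le_pow₀ hy1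
  have hR1 : 1 ≤ R := by rw [hR]; nlinarith
  have hLR : L ≤ N * R := by
    calc L = (u * M ^ j) * ((y : ℝ) ^ j * Λ) := by rw [hL, pow_succ, hΛdef, mul_pow]; ring
      _ ≤ (2 * N) * ((y : ℝ) ^ J * Λ) := by
          apply mul_le_mul hu2 _ (by positivity) (by positivity)
          exact mul_le_mul_of_nonneg_right (pow_le_pow_right₀ hy1 hlJ) (by linarith)
      _ = N * R := by rw [hR]; ring
  have hL0 : 0 ≤ L := by rw [hL]; positivity
  have h1 : L ^ q ≤ R ^ q * (N : ℝ) ^ q := by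
    rw [mul_comm, ← Real.mul_rpow (by positivity) (by positivity)]
    exact Real.rpow_le_rpow hL0 hLR (by linarith)
  have h2 : L ^ (q / 2) ≤ R ^ q * (N : ℝ) ^ (q / 2) := by
    calc L ^ (q / 2) ≤ (N * R) ^ (q / 2) := Real.rpow_le_rpow hL0 hLR (by linarith)
      _ = R ^ (q / 2) * (N : ℝ) ^ (q / 2) := by
          rw [Real.mul_rpow (by positivity) (by positivity), mul_comm]
      _ ≤ R ^ q * (N : ℝ) ^ (q / 2) := by
          apply mul_le_mul_of_nonneg_right _ (by positivity)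
          exact Real.rpow_le_rpow_of_exponent_le hR1 (by linarith)
  calc 30 * Λ ^ 2 * (1 + Real.log T) ^ 3 * Δ ^ (2 * K) * (L ^ q + T * L ^ (q / 2))
      ≤ 30 * Λ ^ 2 * (1 + Real.log T) ^ 3 * Δ ^ (2 * K) *
        (R ^ q * (N : ℝ) ^ q + T * (R ^ q * (N : ℝ) ^ (q / 2))) := by
        apply mul_le_mul_of_nonneg_left _ (by positivity)
        have := mul_le_mul_of_nonneg_left h2 (by linarith : (0 : ℝ) ≤ T)
        linarith
    _ = _ := by ring

/-- **the recursion** -/
theorem recursion {N T k y J K : ℕ} (hN : 2 ≤ N) (hNT : N ≤ T) (hk : T < N ^ (k + 1)) (hy : 1 ≤ y)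
    {M Δ η C q : ℝ} (hM : 1 < M) (hΔ1 : 1 ≤ Δ) (hC : 1 ≤ C) (hq : 1 ≤ q)
    (hΔ : ∀ n : ℕ, 1 ≤ n → (n : ℝ) ≤ T → (n.divisors.card : ℝ) ≤ Δ)
    (hK : Real.log T / Real.log M + k + 1 ≤ K)
    (hcut : ∀ X : AF, FS X → ∀ (T : ℕ) (q W : ℝ), 1 ≤ q →
      (∀ ξ : ℝ, ∑ t ∈ Icc 1 T, ‖ev X ((t : ℝ) + ξ)‖ ^ q ≤ W) →
      ∑ t ∈ Icc 1 T, ‖cut N X (t : ℝ)‖ ^ q ≤ (C * (N : ℝ) ^ η) ^ q * W)
    (hMJ : 2 * (N : ℝ) < M ^ (J + 1))
    (G : AF) (hG : ∀ n, ‖G n‖ ≤ 1) (hGs : ∀ n, G n ≠ 0 → n ^ (k + 1) ≤ T)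
    (f : ℕ → ℂ) (hf1 : f 1 = 1) (hf : ∀ m n, Nat.Coprime m n → f (m * n) = f m * f n)
    (hfb : ∀ n, ‖f n‖ ≤ 1) (i : ℕ) :
    ∀ l : List AF, (∀ B ∈ l, Bd B 1 (M * y) ∧ Ge B M) → l.length + i = J + 1 → ∀ z ≤ y,
      SS N T q (G * l.prod * co f y z y) ≤ ((y : ℝ) + 1) ^ (q * i) * WW C η Δ M N T y J K q := by
  have hM0 : 0 < M := by linarith
  have hy0 : (0 : ℝ) ≤ y := Nat.cast_nonneg _
  have hW0 : 0 ≤ WW C η Δ M N T y J K q := WW_nonneg (by linarith) (by linarith) hM0.le (by omega)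
  induction i with
  | zero =>
    intro l hl hlen z hz
    rw [SS_zero hq]
    · positivity
    · intro n hn
      by_contra hc
      have h1 : Ge (G * l.prod * co f y z y) (1 * M ^ l.length * 1) :=
        ((Ge.base G).mul (Ge.list hM0.le fun B hB => (hl B hB).2) (by positivity)).mul
          (Ge.base _) (by norm_num)
      have h2 := h1 n hc
      have h3 : (n : ℝ) ≤ 2 * N := by exact_mod_cast (mem_Icc.1 hn).2
      rw [show l.length = J + 1 by omega, one_mul, mul_one] at h2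
      linarith
  | succ i ih =>
    intro l hl hlen z hz
    obtain ⟨B, w', hw', hB, hdec⟩ := decomp hf1 hf hfb hy hM z (y - z) (by omega)
    have hFy : co f y (z + (y - z)) y = 1 := by
      rw [show z + (y - z) = y by omega]
      exact co_self hf1 y y
    rw [hFy, mul_one] at hdec
    set h : ℕ → AF := fun a => match a with
      | 0 => G * l.prod * low M (co f y z (z + (y - z)))
      | a + 1 => G * (B a :: l).prod * co f y (w' a) y with hh
    have hsum : G * l.prod * co f y z y = ∑ a ∈ range (y - z + 1), h a := by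
      rw [sum_range_succ', hdec, mul_add, mul_sum, add_comm]
      congr 1
      apply sum_congr rfl
      intro a _
      simp only [hh, List.prod_cons]
      ring
    rw [hsum]
    refine (SS_sum N T q hq _ _).trans ?_
    rw [card_range]
    have hY1 : (1 : ℝ) ≤ (y : ℝ) + 1 := by linarith
    have hterm : ∀ a ∈ range (y - z + 1), SS N T q (h a) ≤
        ((y : ℝ) + 1) ^ (q * i) * WW C η Δ M N T y J K q := by
      intro a ha
      rw [mem_range] at ha
      rcases a with _ | a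
      · have h1 := leaf hN hNT hk hy hM hΔ1 hC hq hΔ hK hcut G hG hGs l hl
          (by omega : l.length ≤ J) (low M (co f y z (z + (y - z)))) (low_Bd hfb hy z _)
        refine h1.trans ?_
        have h2 : 1 ≤ ((y : ℝ) + 1) ^ (q * i) := Real.one_le_rpow hY1 (by positivity)
        calc WW C η Δ M N T y J K q = 1 * WW C η Δ M N T y J K q := (one_mul _).symm
          _ ≤ _ := mul_le_mul_of_nonneg_right h2 hW0
      · apply ih (B a :: l) _ _ (w' a) (hw' a)
        · intro b hb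
          rcases List.mem_cons.1 hb with h1 | h1
          · rw [h1]
            exact ⟨(hB a).1, (hB a).2⟩
          · exact hl b h1
        · rw [List.length_cons]; omega
    calc ((y - z + 1 : ℕ) : ℝ) ^ (q - 1) * ∑ a ∈ range (y - z + 1), SS N T q (h a)
        ≤ ((y - z + 1 : ℕ) : ℝ) ^ (q - 1) * ∑ _a ∈ range (y - z + 1),
          ((y : ℝ) + 1) ^ (q * i) * WW C η Δ M N T y J K q :=
          mul_le_mul_of_nonneg_left (sum_le_sum hterm) (by positivity)
      _ = ((y - z + 1 : ℕ) : ℝ) ^ q * (((y : ℝ) + 1) ^ (q * i) * WW C η Δ M N T y J K q) := by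
          rw [sum_const, card_range, nsmul_eq_mul, ← mul_assoc]
          congr 1
          have h0 : (0 : ℝ) < ((y - z + 1 : ℕ) : ℝ) := by positivity
          nth_rewrite 2 [← Real.rpow_one ((y - z + 1 : ℕ) : ℝ)]
          rw [← Real.rpow_add h0]
          congr 1
          ring
      _ ≤ ((y : ℝ) + 1) ^ q * (((y : ℝ) + 1) ^ (q * i) * WW C η Δ M N T y J K q) := by
          apply mul_le_mul_of_nonneg_right _ (by positivity)
          apply Real.rpow_le_rpow (by positivity) _ (by linarith)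
          have : y - z + 1 ≤ y + 1 := by omega
          exact_mod_cast this
      _ = ((y : ℝ) + 1) ^ (q * ((i + 1 : ℕ) : ℝ)) * WW C η Δ M N T y J K q := by
          rw [← mul_assoc, ← Real.rpow_add (by linarith)]
          congr 2
          push_cast
          ring

end Pool.Agent.TH445.MQ
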